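import Pool.Agent.Q267.OD.Hom

/-!
# The Hasse-Witt matrix of a pencil with diagonal leading form
-/

set_option autoImplicit false

open Finset MvPolynomial

namespace Pool.Agent.Q267.OD

section lead

variable {ι k : Type*} [CommRing k]

lemma lead_coeff (M : ℕ) (e : ι → ℕ) (f : MvPolynomial ι k) (u : ι →₀ ℕ) :
    coeff u (lead M e f) = if Finsupp.weight e u = M then coeff u f else 0 := by
  classical
  unfold lead
  rw [coeff_sum]
  simp only [coeff_monomial]
  rw [Finset.sum_ite_eq']
  by_cases h : Finsupp.weight e u = M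
  · rw [if_pos h]
    by_cases h2 : u ∈ f.support
    · rw [if_pos (mem_filter.mpr ⟨h2, h⟩)]
    · rw [if_neg fun h3 => h2 (mem_filter.mp h3).1, notMem_support_iff.mp h2]
  · rw [if_neg h]
    refine if_neg ?_
    intro h3
    exact h (mem_filter.mp h3).2

lemma lead_add (M : ℕ) (e : ι → ℕ) (L G : MvPolynomial ι k)
    (hL : ∀ u ∈ L.support, Finsupp.weight e u = M) (hG : ∀ u ∈ G.support, Finsupp.weight e u < M) :
    lead M e (L + G) = L := by
  ext u
  rw [lead_coeff, coeff_add]
  by_cases h : Finsupp.weight e u = M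
  · rw [if_pos h]
    have h2 : coeff u G = 0 := by
      by_contra h2
      have := hG u (mem_support_iff.mpr h2)
      omega
    rw [h2, add_zero]
  · rw [if_neg h]
    by_contra h2
    exact h (hL u (mem_support_iff.mpr (Ne.symm h2)))

lemma weight_le_of_add (M : ℕ) (e : ι → ℕ) (L G : MvPolynomial ι k)
    (hL : ∀ u ∈ L.support, Finsupp.weight e u = M) (hG : ∀ u ∈ G.support, Finsupp.weight e u < M) :
    ∀ u ∈ (L + G).support, Finsupp.weight e u ≤ M := by
  intro u hu
  by_contra hcon
  push Not at hcon
  have h1 : coeff u L = 0 := by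
    by_contra h2
    have := hL u (mem_support_iff.mpr h2)
    omega
  have h2 : coeff u G = 0 := by
    by_contra h2
    have := hG u (mem_support_iff.mpr h2)
    omega
  exact mem_support_iff.mp hu (by rw [coeff_add, h1, h2, add_zero])

end lead

section diag

variable {ι : Type*} [Fintype ι] [DecidableEq ι] {k : Type*} [CommRing k]

/-- The diagonal form `∑ b_i x_i ^ (d_i)`. -/
noncomputable def dform (d : ι → ℕ) (b : ι → k) : MvPolynomial ι k :=
  ∑ i, monomial (Finsupp.single i (d i)) (b i)

lemma dform_weight (M : ℕ) (e d : ι → ℕ) (he : ∀ i, e i * d i = M) (b : ι → k) :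
    ∀ u ∈ (dform d b).support, Finsupp.weight e u = M := by
  intro u hu
  rw [mem_support_iff] at hu
  unfold dform at hu
  rw [coeff_sum] at hu
  obtain ⟨i, -, hi⟩ := exists_ne_zero_of_sum_ne_zero hu
  rw [coeff_monomial] at hi
  have h1 : Finsupp.single i (d i) = u := by
    by_contra h1
    exact hi (if_neg h1)
  rw [← h1, Finsupp.weight_single, smul_eq_mul, mul_comm]
  exact he i

/-- The exponent `(κ_l d_l)`. -/
noncomputable def expo (d : ι → ℕ) (κ : Option ι → ℕ) : ι →₀ ℕ :=
  ∑ l, κ (some l) • Finsupp.single l (d l)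

omit [DecidableEq ι] in
lemma expo_apply (d : ι → ℕ) (κ : Option ι → ℕ) (l : ι) : expo d κ l = κ (some l) * d l := by
  unfold expo
  rw [Finsupp.finsetSum_apply, Finset.sum_eq_single l]
  · rw [Finsupp.smul_apply, Finsupp.single_eq_same, smul_eq_mul]
  · intro j _ hj
    rw [Finsupp.smul_apply, Finsupp.single_eq_of_ne (Ne.symm hj), smul_zero]
  · intro h
    exact absurd (mem_univ l) h

omit [Fintype ι] [DecidableEq ι] in
lemma prod_monomial {β : Type*} (s : Finset β) (f : β → ι →₀ ℕ) (a : β → k) :
    ∏ x ∈ s, monomial (f x) (a x) = monomial (∑ x ∈ s, f x) (∏ x ∈ s, a x) := by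
  classical
  induction s using Finset.induction_on with
  | empty => rw [prod_empty, sum_empty, prod_empty]; rfl
  | insert x s hx ih => rw [prod_insert hx, sum_insert hx, prod_insert hx, ih, monomial_mul]

lemma pow_expand (d : ι → ℕ) (b : ι → k) (n : ℕ) :
    (map Polynomial.C (dform d b) + C Polynomial.X) ^ n =
      ∑ κ ∈ piAntidiag (univ : Finset (Option ι)) n,
        monomial (expo d κ) ((Nat.multinomial univ κ : Polynomial k) *
          (Polynomial.X ^ κ none * ∏ l, Polynomial.C (b l) ^ κ (some l))) := by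
  have h1 : map Polynomial.C (dform d b) + C Polynomial.X =
      ∑ x : Option ι, (Option.elim x (C Polynomial.X)
        fun i => monomial (Finsupp.single i (d i)) (Polynomial.C (b i)) :
          MvPolynomial ι (Polynomial k)) := by
    rw [Fintype.sum_option, add_comm]
    unfold dform
    rw [map_sum]
    congr 1
    refine sum_congr rfl fun i _ => ?_
    rw [map_monomial]
    rfl
  rw [h1, sum_pow_eq_sum_piAntidiag]
  refine sum_congr rfl fun κ _ => ?_
  rw [Fintype.prod_option]
  simp only [Option.elim]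
  simp only [monomial_pow]
  have h3 : ∏ x, (monomial (κ (some x) • Finsupp.single x (d x))
      (Polynomial.C (b x) ^ κ (some x)) : MvPolynomial ι (Polynomial k)) =
      monomial (expo d κ) (∏ x, Polynomial.C (b x) ^ κ (some x)) := by
    unfold expo
    rw [prod_monomial]
  rw [h3, ← map_pow]
  have h2 : ((Nat.multinomial univ κ : ℕ) : MvPolynomial ι (Polynomial k)) =
      C ((Nat.multinomial univ κ : ℕ) : Polynomial k) := by
    rw [map_natCast]
  rw [h2, C_mul_monomial, C_mul_monomial]

lemma entry (d : ι → ℕ) (b : ι → k) (n : ℕ) (u v : ι →₀ ℕ) :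
    coeff u (monomial v 1 * (map Polynomial.C (dform d b) + C Polynomial.X) ^ n) =
      ∑ κ ∈ piAntidiag (univ : Finset (Option ι)) n,
        if v + expo d κ = u then ((Nat.multinomial univ κ : Polynomial k) *
          (Polynomial.X ^ κ none * ∏ l, Polynomial.C (b l) ^ κ (some l))) else 0 := by
  rw [pow_expand, mul_sum, coeff_sum]
  refine sum_congr rfl fun κ _ => ?_
  rw [monomial_mul, coeff_monomial, one_mul]

end diag

section main

variable {ι : Type*} [Fintype ι] [DecidableEq ι] {k : Type*} [Field k]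
  {I : Type*} [Fintype I] [DecidableEq I]

lemma multinomial_ne_zero {p : ℕ} [Fact p.Prime] [CharP k p] (κ : Option ι → ℕ)
    (hκ : κ ∈ piAntidiag (univ : Finset (Option ι)) (p - 1)) :
    ((Nat.multinomial univ κ : ℕ) : Polynomial k) ≠ 0 := by
  have hp := (Fact.out : p.Prime)
  intro h
  rw [← map_natCast Polynomial.C, Polynomial.C_eq_zero, CharP.cast_eq_zero_iff k p] at h
  have h1 := Nat.multinomial_spec univ κ
  rw [(mem_piAntidiag.mp hκ).1] at h1
  have h2 : p ∣ (p - 1).factorial := by
    rw [← h1]
    exact dvd_mul_of_dvd_right h _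
  rw [hp.dvd_factorial] at h2
  have := hp.two_le
  omega

theorem lead_ne_zero (p : ℕ) [Fact p.Prime] [CharP k p] (d : ι → ℕ) (hd : ∀ i, d i ∣ p - 1)
    (b : ι → k) (hb : ∀ i, b i ≠ 0) (w : I → ι →₀ ℕ) (hinj : Function.Injective w)
    (hw0 : ∀ i l, 0 < w i l ∧ w i l < d l)
    (hwt : ∀ i, Finsupp.weight (fun l => (p - 1) / d l) (w i) ≤ p - 1) :
    (hw p w (map Polynomial.C (dform d b) + C Polynomial.X)).det ≠ 0 := by
  have hp := (Fact.out : p.Prime)
  have h2 := hp.two_le
  have he : ∀ l, (p - 1) / d l * d l = p - 1 := fun l => Nat.div_mul_cancel (hd l)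
  have hdiag : hw p w (map Polynomial.C (dform d b) + C Polynomial.X) =
      Matrix.diagonal fun i =>
        hw p w (map Polynomial.C (dform d b) + C Polynomial.X) i i := by
    ext1 i j
    by_cases hij : i = j
    · rw [hij, Matrix.diagonal_apply_eq]
    rw [Matrix.diagonal_apply_ne _ hij]
    unfold hw
    rw [Matrix.of_apply, entry]
    refine sum_eq_zero fun κ _ => if_neg fun h => hij (hinj ?_)
    ext l
    have h3 := DFunLike.congr_fun h l
    rw [Finsupp.add_apply, expo_apply, Finsupp.smul_apply, smul_eq_mul] at h3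
    obtain ⟨q, hq⟩ := hd l
    have hpq : p = d l * q + 1 := by omega
    have h4 := hw0 i l
    have h5 := hw0 j l
    have h6 : w j l + κ (some l) * d l = d l * q * w i l + w i l := by
      rw [h3, hpq]; ring
    have h7 : (w j l + κ (some l) * d l) % d l = (d l * q * w i l + w i l) % d l := by rw [h6]
    rw [Nat.add_mul_mod_self_right, mul_assoc, Nat.mul_add_mod, Nat.mod_eq_of_lt h4.2,
      Nat.mod_eq_of_lt h5.2] at h7
    exact h7.symm
  rw [hdiag, Matrix.det_diagonal]
  refine prod_ne_zero_iff.mpr fun i _ => ?_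
  unfold hw
  rw [Matrix.of_apply, entry]
  -- the unique term
  set κ₀ : Option ι → ℕ := fun x => Option.elim x
    (p - 1 - Finsupp.weight (fun l => (p - 1) / d l) (w i)) fun l => (p - 1) / d l * w i l with hκ₀
  have hwt' : Finsupp.weight (fun l => (p - 1) / d l) (w i) = ∑ l, (p - 1) / d l * w i l := by
    rw [Finsupp.weight_apply, Finsupp.sum_fintype _ _ (by simp)]
    exact sum_congr rfl fun l _ => by rw [smul_eq_mul, mul_comm]
  have hmem : κ₀ ∈ piAntidiag (univ : Finset (Option ι)) (p - 1) := by
    rw [mem_piAntidiag]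
    refine ⟨?_, fun x _ => mem_univ x⟩
    rw [Fintype.sum_option]
    change p - 1 - Finsupp.weight (fun l => (p - 1) / d l) (w i) +
      ∑ l, (p - 1) / d l * w i l = p - 1
    rw [← hwt']
    exact Nat.sub_add_cancel (hwt i)
  have hcond : w i + expo d κ₀ = p • w i := by
    ext l
    rw [Finsupp.add_apply, expo_apply, Finsupp.smul_apply, smul_eq_mul]
    change w i l + (p - 1) / d l * w i l * d l = p * w i l
    calc w i l + (p - 1) / d l * w i l * d l = w i l + ((p - 1) / d l * d l) * w i l := by ring
      _ = (1 + (p - 1)) * w i l := by rw [he]; ring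
      _ = p * w i l := by rw [show 1 + (p - 1) = p by omega]
  rw [Finset.sum_eq_single κ₀]
  · rw [if_pos hcond]
    refine mul_ne_zero (multinomial_ne_zero κ₀ hmem) (mul_ne_zero ?_ ?_)
    · exact pow_ne_zero _ Polynomial.X_ne_zero
    · exact prod_ne_zero_iff.mpr fun l _ =>
        pow_ne_zero _ (by rw [Ne, Polynomial.C_eq_zero]; exact hb l)
  · intro κ hκ hne
    refine if_neg fun h => hne ?_
    have h3 : ∀ l, κ (some l) = (p - 1) / d l * w i l := by
      intro l
      have h4 := DFunLike.congr_fun h l
      rw [Finsupp.add_apply, expo_apply, Finsupp.smul_apply, smul_eq_mul] at h4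
      have h5 := hw0 i l
      have h6 : 0 < d l := by omega
      have h7 : κ (some l) * d l = (p - 1) / d l * w i l * d l := by
        have h8 : (p - 1) / d l * w i l * d l = (p - 1) * w i l := by
          calc (p - 1) / d l * w i l * d l = ((p - 1) / d l * d l) * w i l := by ring
            _ = _ := by rw [he]
        rw [h8]
        obtain ⟨q, rfl⟩ : ∃ q, p = q + 1 := ⟨p - 1, by omega⟩
        rw [Nat.add_sub_cancel]
        rw [Nat.succ_mul] at h4
        omega
      exact Nat.eq_of_mul_eq_mul_right h6 h7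
    funext x
    rcases x with _ | l
    · have h4 := (mem_piAntidiag.mp hκ).1
      rw [Fintype.sum_option] at h4
      change κ none = p - 1 - Finsupp.weight (fun l => (p - 1) / d l) (w i)
      have h5 : ∑ l, κ (some l) = ∑ l, (p - 1) / d l * w i l := sum_congr rfl fun l _ => h3 l
      rw [hwt', ← h5]
      omega
    · exact h3 l
  · intro h
    exact absurd hmem h

omit [Fintype ι] [DecidableEq ι] in
lemma det_eval (p : ℕ) (w : I → ι →₀ ℕ) (f : MvPolynomial ι k) (c : k) :
    (hw p w (f + C c)).det =
      (hw p w (map Polynomial.C f + C Polynomial.X)).det.eval c := by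
  have h1 : f + C c = map (Polynomial.evalRingHom c) (map Polynomial.C f + C Polynomial.X) := by
    rw [map_add, MvPolynomial.map_map, map_C]
    have h2 : (Polynomial.evalRingHom c).comp (Polynomial.C : k →+* Polynomial k) =
        RingHom.id k := by
      ext x
      simp
    rw [h2, map_id]
    simp
  rw [h1, det_hw_map]
  rfl

/-- **Few values of `c` have a singular Hasse-Witt matrix.** -/
theorem count_bad (p : ℕ) [Fact p.Prime] [CharP k p] (d : ι → ℕ) (hd : ∀ i, d i ∣ p - 1)
    (b : ι → k) (hb : ∀ i, b i ≠ 0) (w : I → ι →₀ ℕ) (hinj : Function.Injective w)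
    (hw0 : ∀ i l, 0 < w i l ∧ w i l < d l)
    (hwt : ∀ i, Finsupp.weight (fun l => (p - 1) / d l) (w i) ≤ p - 1)
    (G : MvPolynomial ι k)
    (hG : ∀ u ∈ G.support, Finsupp.weight (fun l => (p - 1) / d l) u < p - 1)
    (S : Finset k) (hS : ∀ c ∈ S, (hw p w (dform d b + G + C c)).det = 0) :
    S.card ≤ ∑ i, (p - 1 - Finsupp.weight (fun l => (p - 1) / d l) (w i)) := by
  have hp := (Fact.out : p.Prime)
  have h2 := hp.two_le
  have he : ∀ l, (p - 1) / d l * d l = p - 1 := fun l => Nat.div_mul_cancel (hd l)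
  have hLw := dform_weight (p - 1) (fun l => (p - 1) / d l) d he b
  have h1 := core (p - 1) (fun l => (p - 1) / d l) p hp.one_le w hwt (dform d b + G)
    (weight_le_of_add _ _ _ _ hLw hG) (by
      rw [lead_add _ _ _ _ hLw hG]
      exact lead_ne_zero p d hd b hb w hinj hw0 hwt)
  have h3 : (hw p w (map Polynomial.C (dform d b + G) + C Polynomial.X)).det.natDegree ≤
      ∑ i, (p - 1 - Finsupp.weight (fun l => (p - 1) / d l) (w i)) :=
    Nat.le_of_mul_le_mul_left h1.2 (by omega)
  refine le_trans ?_ h3
  refine Polynomial.card_le_degree_of_subset_roots fun c hc => ?_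
  rw [Polynomial.mem_roots h1.1, Polynomial.IsRoot, ← det_eval]
  exact hS c hc

end main

end Pool.Agent.Q267.OD
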