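import Pool.Agent.Q267.OD.Diag

/-!
# The number of critical points of a polynomial with diagonal leading form
-/

set_option autoImplicit false

open Finset MvPolynomial

namespace Pool.Agent.Q267.OD

section crit

variable {ι : Type*} [Fintype ι] [DecidableEq ι] {K : Type*} [Field K]

omit [DecidableEq ι] in
lemma pderiv_dform (d : ι → ℕ) (b : ι → K) (i : ι) :
    pderiv i (dform d b) = monomial (Finsupp.single i (d i - 1)) (b i * d i) := by
  unfold dform
  rw [map_sum, Finset.sum_eq_single i]
  · rw [pderiv_monomial, Finsupp.single_eq_same]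
    congr 1
    rw [← Finsupp.single_tsub]
  · intro j _ hj
    rw [pderiv_monomial, Finsupp.single_eq_of_ne (Ne.symm hj), Nat.cast_zero, mul_zero, map_zero]
  · intro h
    exact absurd (mem_univ i) h

/-- A functional on polynomials which vanishes on the ideal of the partial derivatives and on all
monomials with small exponents is zero. -/
theorem functional_zero (M : ℕ) (e d : ι → ℕ) (he : ∀ i, e i * d i = M)
    (b : ι → K) (hb : ∀ i, b i * (d i : K) ≠ 0) (G : MvPolynomial ι K)
    (hG : ∀ u ∈ G.support, Finsupp.weight e u < M) (Λ : MvPolynomial ι K →ₗ[K] K)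
    (h1 : ∀ v i, Λ (monomial v 1 * pderiv i (dform d b + G)) = 0)
    (h2 : ∀ u : ι →₀ ℕ, (∀ i, u i + 1 < d i) → Λ (monomial u 1) = 0) :
    ∀ u : ι →₀ ℕ, Λ (monomial u 1) = 0 := by
  have hd0 : ∀ i, 0 < d i := fun i => Nat.pos_of_ne_zero fun h => hb i (by rw [h]; simp)
  have key : ∀ N : ℕ, ∀ u : ι →₀ ℕ, Finsupp.weight e u = N → Λ (monomial u 1) = 0 := by
    intro N
    induction N using Nat.strong_induction_on with
    | _ N ih =>
    intro u hu
    by_cases hsmall : ∀ i, u i + 1 < d i
    · exact h2 u hsmall
    push Not at hsmall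
    obtain ⟨i, hi⟩ := hsmall
    set v : ι →₀ ℕ := u - Finsupp.single i (d i - 1) with hv
    have hle : Finsupp.single i (d i - 1) ≤ u := by
      rw [Finsupp.single_le_iff]
      omega
    have huv : v + Finsupp.single i (d i - 1) = u := tsub_add_cancel_of_le hle
    have hwu : Finsupp.weight e v + (M - e i) = N := by
      rw [← hu, ← huv, map_add, Finsupp.weight_single, smul_eq_mul, Nat.sub_mul, one_mul]
      have := he i
      rw [mul_comm (d i), this]
    have h3 := h1 v i
    rw [map_add, pderiv_dform, mul_add, monomial_mul, huv, one_mul, map_add] at h3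
    have h4 : Λ (monomial v 1 * pderiv i G) = 0 := by
      conv_lhs => rw [G.as_sum]
      rw [map_sum, mul_sum, map_sum]
      refine sum_eq_zero fun t ht => ?_
      rw [pderiv_monomial, monomial_mul, one_mul]
      by_cases h5 : t i = 0
      · rw [h5, Nat.cast_zero, mul_zero, map_zero, map_zero]
      have h6 : Finsupp.weight e (v + (t - Finsupp.single i 1)) < N := by
        rw [map_add]
        have h7 : t - Finsupp.single i 1 + Finsupp.single i 1 = t :=
          tsub_add_cancel_of_le (by rw [Finsupp.single_le_iff]; omega)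
        have h8 : Finsupp.weight e (t - Finsupp.single i 1) + e i = Finsupp.weight e t := by
          conv_rhs => rw [← h7, map_add, Finsupp.weight_single, smul_eq_mul, one_mul]
        have h9 := hG t ht
        omega
      have h7 := ih _ h6 _ rfl
      have h8 : monomial (v + (t - Finsupp.single i 1)) (coeff t G * (t i : K)) =
          (coeff t G * (t i : K)) • monomial (v + (t - Finsupp.single i 1)) (1 : K) := by
        rw [smul_monomial, smul_eq_mul, mul_one]
      rw [h8, map_smul, h7, smul_zero]
    rw [h4, add_zero] at h3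
    have h5 : monomial u (b i * (d i : K)) = (b i * (d i : K)) • monomial u (1 : K) := by
      rw [smul_monomial, smul_eq_mul, mul_one]
    rw [h5, map_smul, smul_eq_mul] at h3
    exact (mul_eq_zero.mp h3).resolve_left (hb i)
  exact fun u => key _ u rfl

/-- **Number of critical points.** -/
theorem crit_card (M : ℕ) (e d : ι → ℕ) (he : ∀ i, e i * d i = M)
    (b : ι → K) (hb : ∀ i, b i * (d i : K) ≠ 0) (G : MvPolynomial ι K)
    (hG : ∀ u ∈ G.support, Finsupp.weight e u < M) (Ξ : Finset (ι → K))
    (hΞ : ∀ ξ ∈ Ξ, ∀ i, eval ξ (pderiv i (dform d b + G)) = 0) :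
    Ξ.card ≤ ∏ i, (d i - 1) := by
  -- the values of the monomials with small exponents at the critical points
  set V : Ξ → ((∀ i, Fin (d i - 1)) → K) := fun ξ s => ∏ i, ξ.1 i ^ (s i : ℕ) with hV
  have hli : LinearIndependent K V := by
    rw [Fintype.linearIndependent_iff]
    intro a ha
    set Λ : MvPolynomial ι K →ₗ[K] K :=
      ∑ ξ : Ξ, a ξ • (MvPolynomial.aeval (R := K) ξ.1).toLinearMap with hΛ
    have hΛa : ∀ f, Λ f = ∑ ξ : Ξ, a ξ * eval ξ.1 f := by
      intro f
      rw [hΛ, LinearMap.sum_apply]
      refine sum_congr rfl fun ξ _ => ?_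
      rw [LinearMap.smul_apply, smul_eq_mul, AlgHom.toLinearMap_apply]
      exact congrArg _ (DFunLike.congr_fun (MvPolynomial.coe_aeval_eq_eval ξ.1) f)
    have hz := functional_zero M e d he b hb G hG Λ
      (by
        intro v i
        rw [hΛa]
        refine sum_eq_zero fun ξ _ => ?_
        rw [map_mul, hΞ ξ.1 ξ.2 i, mul_zero, mul_zero])
      (by
        intro u hu
        rw [hΛa]
        have h1 := congrFun ha fun i => ⟨u i, by have := hu i; omega⟩
        rw [Finset.sum_apply, Pi.zero_apply] at h1
        rw [← h1]
        refine sum_congr rfl fun ξ _ => ?_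
        rw [Pi.smul_apply, smul_eq_mul, eval_monomial, one_mul, Finsupp.prod_fintype _ _ (by simp)])
    have hall : ∀ f, Λ f = 0 := by
      intro f
      rw [f.as_sum, map_sum]
      refine sum_eq_zero fun u _ => ?_
      have h8 : monomial u (coeff u f) = (coeff u f) • monomial u (1 : K) := by
        rw [smul_monomial, smul_eq_mul, mul_one]
      rw [h8, map_smul, hz u, smul_zero]
    -- the evaluations are linearly independent
    have hmon := linearIndependent_monoidHom (MvPolynomial ι K) K
    have hinj : Function.Injective fun ξ : Ξ => ((eval ξ.1 : MvPolynomial ι K →+* K) :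
        MvPolynomial ι K →* K) := by
      intro ξ η h
      apply Subtype.ext
      funext i
      have := DFunLike.congr_fun h (X i)
      simpa using this
    have h2 := hmon.comp _ hinj
    rw [Fintype.linearIndependent_iff] at h2
    refine h2 a ?_
    funext f
    rw [Finset.sum_apply, Pi.zero_apply, ← hall f, hΛa]
    rfl
  have h3 := hli.fintype_card_le_finrank
  rw [Fintype.card_coe, Module.finrank_fintype_fun_eq_card, Fintype.card_pi] at h3
  simpa using h3

end crit

end Pool.Agent.Q267.OD
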