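import Pool.Agent.Q267.OD.Main

/-!
# A positive proportion of ordinary places for almost all members of a pencil
-/

set_option autoImplicit false

open Finset MvPolynomial

namespace Pool.Agent.Q267.OD

open NumberField IsDedekindDomain Filter Topology
open Pool.Agent.W401.Cheb Pool.Agent.W528.Ord

/-- Most places have all the good properties. -/
theorem supply (K : Type) [Field K] [NumberField K] {n : ℕ} (d : Fin n → ℕ)
    (hd0 : ∀ i, d i ≠ 0) (b : Fin n → 𝓞 K) (hb0 : ∀ i, b i ≠ 0) (ε : ℝ) (hε : 0 < ε)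
    (η : ℝ) (hη : 0 < η) : ∃ V : HeightOneSpectrum (𝓞 K) → Prop,
      (∀ v, V v → (Ideal.absNorm v.asIdeal).Prime ∧
        (∀ i, d i ∣ Ideal.absNorm v.asIdeal - 1) ∧ (∀ i, b i ∉ v.asIdeal) ∧
        ((∏ i, (d i - 1) : ℕ) : ℝ) ≤ ε * Ideal.absNorm v.asIdeal) ∧
      ∀ᶠ N : ℕ in atTop,
        1 / (Module.finrank K (CyclotomicField (univ.lcm d) K) : ℝ) - η ≤ dens V N := by
  classical
  have hm : univ.lcm d ≠ 0 := by
    rw [Ne, Finset.lcm_eq_zero_iff]
    rintro ⟨i, _, hi⟩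
    exact hd0 i hi
  have : NeZero (univ.lcm d) := ⟨hm⟩
  obtain ⟨P, hP, hP2⟩ := dens_cyc K (univ.lcm d)
  set Bad : HeightOneSpectrum (𝓞 K) → Prop := fun v =>
    ((univ.lcm d : ℕ) : 𝓞 K) ∈ v.asIdeal ∨ (∃ i, b i ∈ v.asIdeal) ∨
      ¬ ((∏ i, (d i - 1) : ℕ) : ℝ) ≤ ε * Ideal.absNorm v.asIdeal with hBad
  have hfin : {v | Bad v}.Finite := by
    have h1 := finite_mem (K := K) ((univ.lcm d : ℕ) : 𝓞 K) (by exact_mod_cast hm)
    have h2 : (⋃ i, {v : HeightOneSpectrum (𝓞 K) | b i ∈ v.asIdeal}).Finite :=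
      Set.finite_iUnion fun i => finite_mem (b i) (hb0 i)
    have h3 := Pool.Agent.W352.ChAbs.finite_le (K := K) ⌈((∏ i, (d i - 1) : ℕ) : ℝ) / ε⌉₊
    refine ((h1.union h2).union h3).subset ?_
    rintro v (h | ⟨i, h⟩ | h)
    · exact Or.inl (Or.inl h)
    · exact Or.inl (Or.inr (Set.mem_iUnion.mpr ⟨i, h⟩))
    · right
      change Ideal.absNorm v.asIdeal ≤ _
      push Not at h
      have h4 : (Ideal.absNorm v.asIdeal : ℝ) ≤ ((∏ i, (d i - 1) : ℕ) : ℝ) / ε := by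
        rw [le_div_iff₀ hε]
        linarith
      exact_mod_cast h4.trans (Nat.le_ceil _)
  refine ⟨fun v => P v ∧ (Ideal.absNorm v.asIdeal).Prime ∧ ¬ Bad v, ?_, ?_⟩
  · rintro v ⟨h1, h2, h3⟩
    simp only [hBad] at h3
    push Not at h3
    refine ⟨h2, fun i => (Finset.dvd_lcm (mem_univ i)).trans (hP2 v h1 h3.1), h3.2.1, h3.2.2⟩
  · have h1 : Tendsto (fun N => dens (fun v : HeightOneSpectrum (𝓞 K) =>
        ¬ (Ideal.absNorm v.asIdeal).Prime) N + dens Bad N) atTop (𝓝 (0 + 0)) :=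
      (dens_not_prime (K := K)).add (dens_finite Bad hfin)
    rw [add_zero] at h1
    filter_upwards [hP.eventually (lt_mem_nhds (show
      1 / (Module.finrank K (CyclotomicField (univ.lcm d) K) : ℝ) - η / 2 <
      1 / (Module.finrank K (CyclotomicField (univ.lcm d) K) : ℝ) by linarith)),
      h1.eventually (gt_mem_nhds (show (0 : ℝ) < η / 2 by positivity))] with N hN1 hN2
    have h2 : dens P N ≤ dens (fun v => P v ∧ (Ideal.absNorm v.asIdeal).Prime ∧ ¬ Bad v) N +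
        (dens (fun v : HeightOneSpectrum (𝓞 K) => ¬ (Ideal.absNorm v.asIdeal).Prime) N +
          dens Bad N) := by
      refine le_trans (dens_mono (Q := fun v => (P v ∧ (Ideal.absNorm v.asIdeal).Prime ∧ ¬ Bad v) ∨
        (¬ (Ideal.absNorm v.asIdeal).Prime ∨ Bad v)) ?_ N) (le_trans (dens_or _ _ N) ?_)
      · intro v hv
        by_cases h3 : (Ideal.absNorm v.asIdeal).Prime
        · by_cases h4 : Bad v
          · exact Or.inr (Or.inr h4)
          · exact Or.inl ⟨hv, h3, h4⟩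
        · exact Or.inr (Or.inl h3)
      · have := dens_or (fun v : HeightOneSpectrum (𝓞 K) => ¬ (Ideal.absNorm v.asIdeal).Prime)
          Bad N
        linarith
    linarith

/-- The number of all places up to `N`. -/
noncomputable def allP (K : Type) [Field K] [NumberField K] (N : ℕ) : ℕ :=
  Nat.card {v : HeightOneSpectrum (𝓞 K) // Ideal.absNorm v.asIdeal ≤ N}

/-- The number of places of good ordinary reduction up to `N`. -/
noncomputable def ordP {K : Type} [Field K] [NumberField K] {n : ℕ} (d : Fin n → ℕ)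
    (b : Fin n → 𝓞 K) (F : MvPolynomial (Fin n) (𝓞 K)) (N : ℕ) : ℕ :=
  Nat.card {v : HeightOneSpectrum (𝓞 K) // Ideal.absNorm v.asIdeal ≤ N ∧ GoodOrd d b v F}

lemma aux {s κ η ν ε : ℝ} (hs0 : 0 ≤ s) (hs1 : s ≤ 1) (hκ0 : 0 ≤ κ) (hκ1 : κ ≤ 1) (hη : 0 ≤ η)
    (hν0 : 0 ≤ ν) (hν1 : ν ≤ η / 4) (hε : ε = η / 8) :
    (s * κ - η) * (1 + ν) ≤ (s - 2 * ε) * (κ - ν) := by
  have h1 : s * κ ≤ 1 := mul_le_one₀ hs1 hκ0 hκ1
  have ha : s * κ * ν ≤ 1 * ν := mul_le_mul_of_nonneg_right h1 hν0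
  have hb : s * ν ≤ 1 * ν := mul_le_mul_of_nonneg_right hs1 hν0
  have hc : η / 4 * κ ≤ η / 4 * 1 := mul_le_mul_of_nonneg_left hκ1 (by linarith)
  have hd : 0 ≤ η * ν := mul_nonneg hη hν0
  have e1 : (s * κ - η) * (1 + ν) = s * κ + s * κ * ν - η - η * ν := by ring
  have e2 : (s - 2 * ε) * (κ - ν) = s * κ - s * ν - η / 4 * κ + η * ν / 4 := by
    rw [hε]; ring
  rw [e1, e2]
  linarith

theorem main (K : Type) [Field K] [NumberField K] {n : ℕ} (d : Fin n → ℕ)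
    (hd0 : ∀ i, d i ≠ 0) (b : Fin n → 𝓞 K) (hb0 : ∀ i, b i ≠ 0) (η : ℝ) (hη : 0 < η) :
    ∃ A : ℝ, ∀ G : MvPolynomial (Fin n) (𝓞 K), (∀ u ∈ G.support, ∑ i, (u i : ℚ) / d i < 1) →
      ∀ X : ℕ, ({c : ℕ | 1 ≤ c ∧ c ≤ X ∧
        (ordP d b (dform d b + G + C (c : 𝓞 K)) (Nat.sqrt X) : ℝ) <
        ((1 - (defect d : ℝ)) / (Module.finrank K (CyclotomicField (univ.lcm d) K) : ℝ) - η) *
          allP K (Nat.sqrt X)}.ncard : ℝ) * Nat.primeCounting (Nat.sqrt X) ≤ A * X := by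
  classical
  have hm : univ.lcm d ≠ 0 := by
    rw [Ne, Finset.lcm_eq_zero_iff]
    rintro ⟨i, _, hi⟩
    exact hd0 i hi
  have : NeZero (univ.lcm d) := ⟨hm⟩
  have hfd : FiniteDimensional K (CyclotomicField (univ.lcm d) K) :=
    IsCyclotomicExtension.finiteDimensional ({univ.lcm d} : Set ℕ) K _
  obtain ⟨f, hf⟩ : ∃ f : ℕ, f = Module.finrank K (CyclotomicField (univ.lcm d) K) := ⟨_, rfl⟩
  have hf1 : 1 ≤ f := by
    rw [hf]
    exact Module.finrank_pos
  have hf1' : (1 : ℝ) ≤ f := by exact_mod_cast hf1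
  rw [← hf]
  obtain ⟨κ, hκ⟩ : ∃ κ : ℝ, κ = 1 / (f : ℝ) := ⟨_, rfl⟩
  have hκ0 : 0 < κ := by rw [hκ]; positivity
  have hκ1 : κ ≤ 1 := by
    rw [hκ, div_le_one (by linarith)]
    exact hf1'
  obtain ⟨δ, hδ⟩ : ∃ δ : ℝ, δ = (defect d : ℝ) := ⟨_, rfl⟩
  have hδ0 : 0 ≤ δ := by rw [hδ]; exact_mod_cast defect_nonneg d
  rw [← hδ]
  have hs : (1 - δ) / (f : ℝ) = (1 - δ) * κ := by rw [hκ]; ring
  rw [hs]
  -- nothing to prove if the proportion is not positive
  by_cases hpos : (1 - δ) * κ - η ≤ 0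
  · refine ⟨0, fun G _ X => ?_⟩
    have h1 : {c : ℕ | 1 ≤ c ∧ c ≤ X ∧
        (ordP d b (dform d b + G + C (c : 𝓞 K)) (Nat.sqrt X) : ℝ) <
        ((1 - δ) * κ - η) * allP K (Nat.sqrt X)} = ∅ := by
      ext c
      simp only [Set.mem_ofPred_eq, Set.mem_empty_iff_false, iff_false, not_and, not_lt]
      intro _ _
      have h2 : ((1 - δ) * κ - η) * (allP K (Nat.sqrt X) : ℝ) ≤ 0 :=
        mul_nonpos_of_nonpos_of_nonneg hpos (Nat.cast_nonneg _)
      exact h2.trans (Nat.cast_nonneg _)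
    rw [h1, Set.ncard_empty]
    simp
  push Not at hpos
  have hs0 : 0 < 1 - δ := by
    by_contra h
    push Not at h
    nlinarith
  have hs1 : 1 - δ ≤ 1 := by linarith
  have hsη : η < 1 - δ := by nlinarith
  obtain ⟨ε, hε⟩ : ∃ ε : ℝ, ε = η / 8 := ⟨_, rfl⟩
  have hε0 : 0 < ε := by rw [hε]; positivity
  obtain ⟨ν, hν⟩ : ∃ ν : ℝ, ν = min (η / 4) (κ / 2) := ⟨_, rfl⟩
  have hν0 : 0 < ν := by rw [hν]; positivity
  have hν1 : ν ≤ η / 4 := by rw [hν]; exact min_le_left _ _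
  have hν2 : ν ≤ κ / 2 := by rw [hν]; exact min_le_right _ _
  obtain ⟨V, hV1, hV2⟩ := supply K d hd0 b hb0 ε hε0 ν hν0
  rw [← hf, ← hκ] at hV2
  have hall := (dens_true' (K := K)).eventually (gt_mem_nhds (show (1 : ℝ) < 1 + ν by linarith))
  obtain ⟨N₀, hN₀⟩ := (hV2.and (hall.and (eventually_ge_atTop 2))).exists_forall_of_atTop
  obtain ⟨D, hD⟩ : ∃ D : ℝ, D = (Module.finrank ℚ K : ℝ) := ⟨_, rfl⟩
  have hD0 : 0 ≤ D := by rw [hD]; exact Nat.cast_nonneg _
  refine ⟨Nat.primeCounting N₀ + 24 * D * (δ + ε) / (ε ^ 2 * κ), fun G hG X => ?_⟩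
  obtain ⟨Q, hQ⟩ : ∃ Q : ℕ, Q = Nat.sqrt X := ⟨_, rfl⟩
  rw [← hQ]
  set ES : Set ℕ := {c : ℕ | 1 ≤ c ∧ c ≤ X ∧
        (ordP d b (dform d b + G + C (c : 𝓞 K)) Q : ℝ) <
        ((1 - δ) * κ - η) * allP K Q} with hES
  have hsub : ES ⊆ (Icc 1 X : Finset ℕ) := by
    rintro c ⟨h1, h2, _⟩
    rw [Finset.mem_coe, Finset.mem_Icc]
    exact ⟨h1, h2⟩
  have hfin : ES.Finite := (Finset.finite_toSet _).subset hsub
  have hcard : ES.ncard ≤ X := by
    have := Set.ncard_le_ncard hsub (Finset.finite_toSet _)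
    rw [Set.ncard_coe_finset, Nat.card_Icc, Nat.add_sub_cancel] at this
    exact this
  have hX0 : (0 : ℝ) ≤ X := Nat.cast_nonneg _
  have hconst : 0 ≤ 24 * D * (δ + ε) / (ε ^ 2 * κ) := by positivity
  by_cases hQN : Q < N₀
  · have h1 : (Nat.primeCounting Q : ℝ) ≤ Nat.primeCounting N₀ := by
      exact_mod_cast Nat.monotone_primeCounting hQN.le
    have h2 : (ES.ncard : ℝ) ≤ X := by exact_mod_cast hcard
    calc (ES.ncard : ℝ) * Nat.primeCounting Q ≤ X * Nat.primeCounting N₀ :=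
          mul_le_mul h2 h1 (Nat.cast_nonneg _) hX0
      _ ≤ (Nat.primeCounting N₀ + 24 * D * (δ + ε) / (ε ^ 2 * κ)) * X := by
          nlinarith [mul_nonneg hconst hX0]
  push Not at hQN
  obtain ⟨h1, h2, h3⟩ := hN₀ Q hQN
  have hπ : (0 : ℝ) < Nat.primeCounting Q := by
    have h4 := Nat.monotone_primeCounting h3
    have h5 : Nat.primeCounting 2 = 1 := by decide
    have h6 : 0 < Nat.primeCounting Q := by omega
    exact_mod_cast h6
  have hVfin : {v : HeightOneSpectrum (𝓞 K) | Ideal.absNorm v.asIdeal ≤ Q ∧ V v}.Finite :=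
    (Pool.Agent.W352.ChAbs.finite_le (K := K) Q).subset fun v hv => hv.1
  set W := hVfin.toFinset with hW
  have hWmem : ∀ v, v ∈ W ↔ Ideal.absNorm v.asIdeal ≤ Q ∧ V v := fun v => by
    rw [hW, Set.Finite.mem_toFinset]
    rfl
  have hWcard : (κ - ν) * Nat.primeCounting Q ≤ (W.card : ℝ) := by
    unfold Pool.Agent.W401.Cheb.dens at h1
    have h4 : Nat.card {v : HeightOneSpectrum (𝓞 K) // Ideal.absNorm v.asIdeal ≤ Q ∧ V v} =
        W.card := Set.ncard_eq_toFinset_card _ hVfin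
    rw [h4, le_div_iff₀ hπ] at h1
    exact h1
  have hall' : (allP K Q : ℝ) ≤ (1 + ν) * Nat.primeCounting Q := by
    rw [div_lt_iff₀ hπ] at h2
    exact h2.le
  have hex := explicit d hd0 b G hG ε hε0.le Q W (by
      intro v hv
      obtain ⟨h4, h5⟩ := (hWmem v).mp hv
      obtain ⟨h6, h7, h8, h9⟩ := hV1 v h5
      exact ⟨h6, h4, h7, h8, h9⟩) X hfin.toFinset (by
      intro c hc
      rw [Set.Finite.mem_toFinset] at hc
      obtain ⟨h4, h5, h6⟩ := hc
      refine ⟨Finset.mem_Icc.mpr ⟨h4, h5⟩,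
        W.filter fun v => GoodOrd d b v (dform d b + G + C (c : 𝓞 K)), Finset.filter_subset _ _,
        fun v hv hg => Finset.mem_filter.mpr ⟨hv, hg⟩, ?_⟩
      have hofin : {v : HeightOneSpectrum (𝓞 K) | Ideal.absNorm v.asIdeal ≤ Q ∧
          GoodOrd d b v (dform d b + G + C (c : 𝓞 K))}.Finite :=
        (Pool.Agent.W352.ChAbs.finite_le (K := K) Q).subset fun v hv => hv.1
      have h7 : (W.filter fun v => GoodOrd d b v (dform d b + G + C (c : 𝓞 K))).card ≤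
          ordP d b (dform d b + G + C (c : 𝓞 K)) Q := by
        have h8 : ordP d b (dform d b + G + C (c : 𝓞 K)) Q = hofin.toFinset.card :=
          Set.ncard_eq_toFinset_card _ hofin
        rw [h8]
        refine Finset.card_le_card fun v hv => ?_
        rw [Finset.mem_filter] at hv
        rw [Set.Finite.mem_toFinset]
        exact ⟨((hWmem v).mp hv.1).1, hv.2⟩
      have h8 : ((W.filter fun v => GoodOrd d b v (dform d b + G + C (c : 𝓞 K))).card : ℝ) ≤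
          ((1 - δ) * κ - η) * ((1 + ν) * Nat.primeCounting Q) := by
        have h9 : ((W.filter fun v => GoodOrd d b v (dform d b + G + C (c : 𝓞 K))).card : ℝ) ≤
          (ordP d b (dform d b + G + C (c : 𝓞 K)) Q : ℝ) := by exact_mod_cast h7
        exact h9.trans (h6.le.trans (mul_le_mul_of_nonneg_left hall' hpos.le))
      rw [← hδ]
      have h9 : ((1 - δ) * κ - η) * (1 + ν) ≤ (1 - δ - 2 * ε) * (κ - ν) :=
        aux hs0.le hs1 hκ0.le hκ1 hη.le hν0.le hν1 hε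
      have h10 : 0 ≤ 1 - δ - 2 * ε := by rw [hε]; linarith
      calc ((W.filter fun v => GoodOrd d b v (dform d b + G + C (c : 𝓞 K))).card : ℝ)
          ≤ ((1 - δ) * κ - η) * ((1 + ν) * Nat.primeCounting Q) := h8
        _ = (((1 - δ) * κ - η) * (1 + ν)) * Nat.primeCounting Q := by ring
        _ ≤ ((1 - δ - 2 * ε) * (κ - ν)) * Nat.primeCounting Q :=
            mul_le_mul_of_nonneg_right h9 hπ.le
        _ = (1 - δ - 2 * ε) * ((κ - ν) * Nat.primeCounting Q) := by ring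
        _ ≤ (1 - δ - 2 * ε) * W.card := mul_le_mul_of_nonneg_left hWcard h10)
  rw [← Set.ncard_eq_toFinset_card _ hfin, ← hD, ← hδ] at hex
  -- the final inequality
  have hQX : (Q : ℝ) ^ 2 ≤ X := by
    rw [hQ]
    exact_mod_cast Nat.sqrt_le' X
  have h4 : (κ / 2) * Nat.primeCounting Q ≤ (W.card : ℝ) :=
    (mul_le_mul_of_nonneg_right (by linarith) hπ.le).trans hWcard
  have h5 : ε ^ 2 * ((κ / 2) * Nat.primeCounting Q) * ES.ncard ≤
      6 * D * (δ + ε) * (2 * X) := by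
    calc ε ^ 2 * ((κ / 2) * Nat.primeCounting Q) * ES.ncard ≤ ε ^ 2 * W.card * ES.ncard :=
          mul_le_mul_of_nonneg_right (mul_le_mul_of_nonneg_left h4 (by positivity))
            (Nat.cast_nonneg _)
      _ ≤ 6 * D * (δ + ε) * ((X : ℝ) + (Q : ℝ) ^ 2) := hex
      _ ≤ 6 * D * (δ + ε) * (2 * X) := by
          refine mul_le_mul_of_nonneg_left (by linarith) (by positivity)
  have h6 : (ES.ncard : ℝ) * Nat.primeCounting Q ≤ 24 * D * (δ + ε) / (ε ^ 2 * κ) * X := by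
    rw [div_mul_eq_mul_div, le_div_iff₀ (by positivity)]
    nlinarith
  refine h6.trans ?_
  have h7 : (0 : ℝ) ≤ Nat.primeCounting N₀ := Nat.cast_nonneg _
  nlinarith [mul_nonneg h7 hX0]

end Pool.Agent.Q267.OD
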