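import Mathlib

/-!
# Degrees of Hasse-Witt determinants in a pencil `F + T`

`F` is a polynomial in the variables `ι` with weights `e`, all monomials of `F` have weight at most `M`
and `L` is the part of weight `M`.  The determinant of the matrix of the coefficients of
`x ^ (p w)` in `x ^ w' (F + T) ^ (p - 1)`, `w, w'` in a finite family of exponents, is a polynomial in
`T` of degree at most `(p - 1) ∑ (M - |w|) / M`, with equality if the same determinant for `L` is not
zero.
-/

set_option autoImplicit false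

open Finset MvPolynomial

namespace Pool.Agent.Q267.OD

section base

variable {k : Type*} [CommRing k]

/-- The weights `M` for `T = X 0` and `1` for `s = X 1`. -/
def ww (M : ℕ) : Fin 2 → ℕ := ![M, 1]

/-- Weighted homogeneous polynomials in `T` and `s`. -/
abbrev WH (M : ℕ) (a : MvPolynomial (Fin 2) k) (j : ℕ) : Prop := IsWeightedHomogeneous (ww M) a j

lemma weight_ww (M : ℕ) (u : Fin 2 →₀ ℕ) : Finsupp.weight (ww M) u = M * u 0 + u 1 := by
  rw [Finsupp.weight_apply, Finsupp.sum_fintype _ _ (by simp), Fin.sum_univ_two]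
  simp [ww, mul_comm]

/-- The specialisation `s = c`. -/
noncomputable def sp (c : k) : MvPolynomial (Fin 2) k →+* Polynomial k :=
  eval₂Hom Polynomial.C ![Polynomial.X, Polynomial.C c]

lemma sp_monomial (c a : k) (u : Fin 2 →₀ ℕ) :
    sp c (monomial u a) = Polynomial.C (a * c ^ u 1) * Polynomial.X ^ u 0 := by
  unfold sp
  rw [coe_eval₂Hom, eval₂_monomial, Finsupp.prod_fintype _ _ (by simp), Fin.prod_univ_two]
  simp only [Matrix.cons_val_zero, Matrix.cons_val_one, map_mul, map_pow]
  ring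

lemma sp_coeff (c : k) (f : MvPolynomial (Fin 2) k) (i : ℕ) :
    (sp c f).coeff i = ∑ u ∈ f.support, if u 0 = i then coeff u f * c ^ u 1 else 0 := by
  conv_lhs => rw [f.as_sum]
  rw [map_sum, Polynomial.finsetSum_coeff]
  refine sum_congr rfl fun u _ => ?_
  rw [sp_monomial, Polynomial.coeff_C_mul_X_pow]
  by_cases h : u 0 = i
  · rw [if_pos h, if_pos h.symm]
  · rw [if_neg h, if_neg (Ne.symm h)]

lemma sp_coeff_le {M : ℕ} {f : MvPolynomial (Fin 2) k} {N : ℕ} (hf : WH M f N) (c : k) (i : ℕ)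
    (h : (sp c f).coeff i ≠ 0) : M * i ≤ N := by
  rw [sp_coeff] at h
  obtain ⟨u, hu, h2⟩ := exists_ne_zero_of_sum_ne_zero h
  have h3 : u 0 = i := by
    by_contra h3
    exact h2 (if_neg h3)
  have h4 := hf (mem_support_iff.mp hu)
  rw [weight_ww, h3] at h4
  omega

lemma sp_coeff_top {M : ℕ} {f : MvPolynomial (Fin 2) k} {N : ℕ} (hf : WH M f N) (c : k) (i : ℕ)
    (h : M * i = N) : (sp c f).coeff i = (sp 0 f).coeff i := by
  rw [sp_coeff, sp_coeff]
  refine sum_congr rfl fun u hu => ?_
  by_cases h3 : u 0 = i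
  · rw [if_pos h3, if_pos h3]
    have h4 := hf (mem_support_iff.mp hu)
    rw [weight_ww, h3] at h4
    have h5 : u 1 = 0 := by omega
    rw [h5, pow_zero, pow_zero]
  · rw [if_neg h3, if_neg h3]

end base

section graded

variable {k : Type*} [CommRing k] {ι : Type*}

/-- The coefficient at `x ^ u` is weighted homogeneous of degree `N - |u|`. -/
def Gr (M : ℕ) (e : ι → ℕ) (f : MvPolynomial ι (MvPolynomial (Fin 2) k)) (N : ℕ) : Prop :=
  ∀ u, coeff u f ≠ 0 → ∃ j, j + Finsupp.weight e u = N ∧ WH M (coeff u f) j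

variable {M : ℕ} {e : ι → ℕ}

lemma Gr.mul {f g : MvPolynomial ι (MvPolynomial (Fin 2) k)} {N N' : ℕ} (hf : Gr M e f N)
    (hg : Gr M e g N') : Gr M e (f * g) (N + N') := by
  classical
  intro u hu
  rw [coeff_mul] at hu ⊢
  obtain ⟨x, hx, h1⟩ := exists_ne_zero_of_sum_ne_zero hu
  rw [HasAntidiagonal.mem_antidiagonal] at hx
  obtain ⟨j, hj, -⟩ := hf x.1 (left_ne_zero_of_mul h1)
  obtain ⟨j', hj', -⟩ := hg x.2 (right_ne_zero_of_mul h1)
  have hxw : Finsupp.weight e x.1 + Finsupp.weight e x.2 = Finsupp.weight e u := by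
    rw [← map_add, hx]
  refine ⟨j + j', by omega, ?_⟩
  refine IsWeightedHomogeneous.sum _ _ _ fun y hy => ?_
  rw [HasAntidiagonal.mem_antidiagonal] at hy
  by_cases h2 : coeff y.1 f = 0
  · rw [h2, zero_mul]; exact isWeightedHomogeneous_zero _ _ _
  by_cases h3 : coeff y.2 g = 0
  · rw [h3, mul_zero]; exact isWeightedHomogeneous_zero _ _ _
  obtain ⟨i, hi, hi2⟩ := hf y.1 h2
  obtain ⟨i', hi', hi2'⟩ := hg y.2 h3
  have hyw : Finsupp.weight e y.1 + Finsupp.weight e y.2 = Finsupp.weight e u := by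
    rw [← map_add, hy]
  have h4 : i + i' = j + j' := by omega
  rw [← h4]
  exact hi2.mul hi2'

lemma Gr.one : Gr M e (1 : MvPolynomial ι (MvPolynomial (Fin 2) k)) 0 := by
  classical
  intro u hu
  rw [coeff_one] at hu ⊢
  by_cases h : 0 = u
  · rw [if_pos h, ← h]
    exact ⟨0, by simp, isWeightedHomogeneous_one _ _⟩
  · exact absurd (if_neg h) hu

lemma Gr.pow {f : MvPolynomial ι (MvPolynomial (Fin 2) k)} {N : ℕ} (hf : Gr M e f N) (n : ℕ) :
    Gr M e (f ^ n) (n * N) := by
  induction n with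
  | zero => rw [pow_zero, zero_mul]; exact Gr.one
  | succ n ih => rw [_root_.pow_succ, Nat.succ_mul]; exact ih.mul hf

lemma Gr.zero (N : ℕ) : Gr M e (0 : MvPolynomial ι (MvPolynomial (Fin 2) k)) N := by
  intro u hu
  exact absurd (coeff_zero u) hu

lemma Gr.add {f g : MvPolynomial ι (MvPolynomial (Fin 2) k)} {N : ℕ} (hf : Gr M e f N)
    (hg : Gr M e g N) : Gr M e (f + g) N := by
  intro u hu
  rw [coeff_add] at hu ⊢
  by_cases h2 : coeff u f = 0
  · rw [h2, zero_add] at hu ⊢
    exact hg u hu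
  by_cases h3 : coeff u g = 0
  · rw [h3, add_zero] at hu ⊢
    exact hf u hu
  obtain ⟨j, hj, hj2⟩ := hf u h2
  obtain ⟨i, hi, hi2⟩ := hg u h3
  refine ⟨j, hj, ?_⟩
  have : i = j := by omega
  subst this
  exact hj2.add hi2

lemma Gr.sum {β : Type*} (s : Finset β) {f : β → MvPolynomial ι (MvPolynomial (Fin 2) k)} {N : ℕ}
    (hf : ∀ b ∈ s, Gr M e (f b) N) : Gr M e (∑ b ∈ s, f b) N := by
  classical
  induction s using Finset.induction_on with
  | empty => rw [sum_empty]; exact Gr.zero N
  | insert a s ha ih =>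
    rw [sum_insert ha]
    exact (hf a (mem_insert_self _ _)).add (ih fun b hb => hf b (mem_insert_of_mem hb))

lemma Gr.monomial {u : ι →₀ ℕ} {a : MvPolynomial (Fin 2) k} {j N : ℕ} (ha : WH M a j)
    (hj : j + Finsupp.weight e u = N) : Gr M e (MvPolynomial.monomial u a) N := by
  classical
  intro v hv
  rw [coeff_monomial] at hv ⊢
  by_cases h : u = v
  · rw [if_pos h, ← h]
    exact ⟨j, hj, ha⟩
  · exact absurd (if_neg h) hv

end graded

section hw

variable {ι I : Type*} [Fintype I] [DecidableEq I]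

/-- The matrix of the coefficients of `x ^ (p w_i)` in `x ^ (w_j) F ^ (p - 1)`. -/
noncomputable def hw {R : Type*} [CommRing R] (p : ℕ) (w : I → ι →₀ ℕ) (F : MvPolynomial ι R) :
    Matrix I I R :=
  Matrix.of fun i j => coeff (p • w i) (monomial (w j) 1 * F ^ (p - 1))

omit [Fintype I] [DecidableEq I] in
lemma hw_map {R S : Type*} [CommRing R] [CommRing S] (φ : R →+* S) (p : ℕ) (w : I → ι →₀ ℕ)
    (F : MvPolynomial ι R) : hw p w (map φ F) = (hw p w F).map φ := by
  ext i j
  simp only [hw, Matrix.of_apply, Matrix.map_apply]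
  rw [← coeff_map, map_mul, map_pow, map_monomial, RingHom.map_one]

lemma det_hw_map {R S : Type*} [CommRing R] [CommRing S] (φ : R →+* S) (p : ℕ) (w : I → ι →₀ ℕ)
    (F : MvPolynomial ι R) : (hw p w (map φ F)).det = φ (hw p w F).det := by
  rw [hw_map, RingHom.map_det]
  rfl

variable {k : Type*} [CommRing k]

lemma det_gr (M : ℕ) (e : ι → ℕ) (p : ℕ) (hp : 1 ≤ p) (w : I → ι →₀ ℕ)
    (hw1 : ∀ i, Finsupp.weight e (w i) ≤ M) (F : MvPolynomial ι (MvPolynomial (Fin 2) k))
    (hF : Gr M e F M) :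
    WH M (hw p w F).det ((p - 1) * ∑ i, (M - Finsupp.weight e (w i))) := by
  rw [Matrix.det_apply]
  refine IsWeightedHomogeneous.sum _ _ _ fun σ _ => ?_
  have key : WH M (∏ i, hw p w F (σ i) i) ((p - 1) * ∑ i, (M - Finsupp.weight e (w i))) := by
    by_cases h0 : ∃ i, hw p w F (σ i) i = 0
    · obtain ⟨i, hi⟩ := h0
      rw [prod_eq_zero (f := fun i => hw p w F (σ i) i) (mem_univ i) hi]
      exact isWeightedHomogeneous_zero _ _ _
    push Not at h0
    have h1 : ∀ i, ∃ j, j + p * Finsupp.weight e (w (σ i)) =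
        Finsupp.weight e (w i) + (p - 1) * M ∧ WH M (hw p w F (σ i) i) j := by
      intro i
      have hg : Gr M e (monomial (w i) (1 : MvPolynomial (Fin 2) k) * F ^ (p - 1))
          (Finsupp.weight e (w i) + (p - 1) * M) :=
        (Gr.monomial (isWeightedHomogeneous_one _ _) (by omega)).mul (hF.pow _)
      obtain ⟨j, hj, hj2⟩ := hg (p • w (σ i)) (h0 i)
      rw [map_nsmul, smul_eq_mul] at hj
      exact ⟨j, hj, hj2⟩
    choose j hj hj2 using h1
    have h2 := IsWeightedHomogeneous.prod univ (fun i => hw p w F (σ i) i) j fun i _ => hj2 i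
    have h3 : ∑ i, j i = (p - 1) * ∑ i, (M - Finsupp.weight e (w i)) := by
      have h4 : ∑ i, j i + p * ∑ i, Finsupp.weight e (w (σ i)) =
          ∑ i, Finsupp.weight e (w i) + ∑ _i : I, (p - 1) * M := by
        rw [mul_sum, ← sum_add_distrib, ← sum_add_distrib]
        exact sum_congr rfl fun i _ => hj i
      rw [Equiv.sum_comp σ fun i => Finsupp.weight e (w i)] at h4
      have h5 : ∑ i, (M - Finsupp.weight e (w i)) + ∑ i, Finsupp.weight e (w i) = ∑ _i : I, M := by
        rw [← sum_add_distrib]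
        exact sum_congr rfl fun i _ => Nat.sub_add_cancel (hw1 i)
      obtain ⟨q, rfl⟩ : ∃ q, p = q + 1 := ⟨p - 1, by omega⟩
      rw [← mul_sum, ← h5, Nat.add_sub_cancel, Nat.mul_add, Nat.add_mul, one_mul] at h4
      rw [Nat.add_sub_cancel]
      omega
    rw [← h3]
    exact h2
  rcases Int.units_eq_one_or (Equiv.Perm.sign σ) with h | h
  · rw [h, one_smul]; exact key
  · rw [h, Units.neg_smul, one_smul]
    exact key.neg

/-- The homogenized pencil `∑ a_u s ^ (M - |u|) x ^ u + T`. -/
noncomputable def lift (M : ℕ) (e : ι → ℕ) (f : MvPolynomial ι k) :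
    MvPolynomial ι (MvPolynomial (Fin 2) k) :=
  ∑ u ∈ f.support, monomial u (C (coeff u f) * X 1 ^ (M - Finsupp.weight e u)) + C (X 0)

lemma lift_gr (M : ℕ) (e : ι → ℕ) (f : MvPolynomial ι k)
    (hf : ∀ u ∈ f.support, Finsupp.weight e u ≤ M) : Gr M e (lift M e f) M := by
  refine (Gr.sum _ fun u hu => ?_).add ?_
  · refine Gr.monomial (j := M - Finsupp.weight e u) ?_ (Nat.sub_add_cancel (hf u hu))
    have h1 := (isWeightedHomogeneous_C (ww M) (coeff u f)).mul
      ((isWeightedHomogeneous_X k (ww M) 1).pow (M - Finsupp.weight e u))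
    have h2 : 0 + (M - Finsupp.weight e u) • ww M 1 = M - Finsupp.weight e u := by
      simp [ww]
    rw [h2] at h1
    exact h1
  · have h1 := isWeightedHomogeneous_X k (ww M) 0
    have h2 : ww M 0 = M := rfl
    rw [h2] at h1
    exact Gr.monomial (u := 0) (j := M) h1 (by simp)

/-- The leading form. -/
noncomputable def lead (M : ℕ) (e : ι → ℕ) (f : MvPolynomial ι k) : MvPolynomial ι k :=
  ∑ u ∈ f.support.filter fun u => Finsupp.weight e u = M, monomial u (coeff u f)

lemma map_sp_one (M : ℕ) (e : ι → ℕ) (f : MvPolynomial ι k) :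
    map (sp 1) (lift M e f) = map Polynomial.C f + C Polynomial.X := by
  unfold lift
  rw [map_add, map_sum]
  congr 1
  · conv_rhs => rw [f.as_sum, map_sum]
    refine sum_congr rfl fun u _ => ?_
    rw [map_monomial, map_monomial, map_mul, map_pow]
    congr 1
    simp [sp]
  · rw [map_C]
    simp [sp]

lemma map_sp_zero (M : ℕ) (e : ι → ℕ) (f : MvPolynomial ι k)
    (hf : ∀ u ∈ f.support, Finsupp.weight e u ≤ M) :
    map (sp 0) (lift M e f) = map Polynomial.C (lead M e f) + C Polynomial.X := by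
  unfold lift lead
  rw [map_add, map_sum]
  congr 1
  · rw [map_sum, sum_filter]
    refine sum_congr rfl fun u hu => ?_
    rw [map_monomial, map_mul, map_pow]
    by_cases h : Finsupp.weight e u = M
    · rw [if_pos h, map_monomial, h, Nat.sub_self, pow_zero, mul_one]
      congr 1
      simp [sp]
    · rw [if_neg h]
      have h1 := hf u hu
      have h2 : M - Finsupp.weight e u ≠ 0 := by omega
      have h3 : sp (0 : k) (X 1) = 0 := by simp [sp]
      rw [h3, zero_pow h2, mul_zero, map_zero]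
  · rw [map_C]
    simp [sp]

/-- **Degree of the Hasse-Witt determinant in a pencil.** -/
theorem core (M : ℕ) (e : ι → ℕ) (p : ℕ) (hp : 1 ≤ p) (w : I → ι →₀ ℕ)
    (hw1 : ∀ i, Finsupp.weight e (w i) ≤ M) (f : MvPolynomial ι k)
    (hf : ∀ u ∈ f.support, Finsupp.weight e u ≤ M)
    (hL : (hw p w (map Polynomial.C (lead M e f) + C Polynomial.X)).det ≠ 0) :
    (hw p w (map Polynomial.C f + C Polynomial.X)).det ≠ 0 ∧
    M * (hw p w (map Polynomial.C f + C Polynomial.X)).det.natDegree ≤
      (p - 1) * ∑ i, (M - Finsupp.weight e (w i)) := by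
  have h1 := det_gr M e p hp w hw1 (lift M e f) (lift_gr M e f hf)
  have h2 : (hw p w (map Polynomial.C f + C Polynomial.X)).det =
      sp 1 (hw p w (lift M e f)).det := by
    rw [← map_sp_one M e f, det_hw_map]
  have h3 : (hw p w (map Polynomial.C (lead M e f) + C Polynomial.X)).det =
      sp 0 (hw p w (lift M e f)).det := by
    rw [← map_sp_zero M e f hf, det_hw_map]
  rw [h3] at hL
  rw [h2]
  have h4 : sp 1 (hw p w (lift M e f)).det ≠ 0 := by
    obtain ⟨i, hi⟩ : ∃ i, (sp 0 (hw p w (lift M e f)).det).coeff i ≠ 0 := by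
      by_contra hcon
      push Not at hcon
      exact hL (Polynomial.ext fun i => by rw [hcon i, Polynomial.coeff_zero])
    -- the coefficient of `sp 0` is at a monomial `T ^ i`
    have h5 : M * i = (p - 1) * ∑ i, (M - Finsupp.weight e (w i)) := by
      have hi' := hi
      rw [sp_coeff] at hi'
      obtain ⟨u, hu, h6⟩ := exists_ne_zero_of_sum_ne_zero hi'
      have h7 : u 0 = i := by
        by_contra h7
        exact h6 (if_neg h7)
      rw [if_pos h7] at h6
      have h8 : u 1 = 0 := by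
        by_contra h8
        rw [zero_pow h8, mul_zero] at h6
        exact h6 rfl
      have h9 := h1 (mem_support_iff.mp hu)
      rw [weight_ww, h7, h8, add_zero] at h9
      exact h9
    intro h6
    have h7 := sp_coeff_top h1 1 i h5
    rw [h6, Polynomial.coeff_zero] at h7
    exact hi h7.symm
  refine ⟨h4, ?_⟩
  refine sp_coeff_le h1 1 _ ?_
  rw [Polynomial.coeff_natDegree]
  exact Polynomial.leadingCoeff_ne_zero.mpr h4

end hw

end Pool.Agent.Q267.OD
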