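import Pool.Agent.W528.Ord.Main2

/-!
# Places with norm congruent to one
-/

set_option autoImplicit false

namespace Pool.Agent.Q267.OD

open NumberField IsDedekindDomain Filter Topology
open Pool.Agent.W401.Cheb Pool.Agent.W528.Ord

variable {K : Type} [Field K] [NumberField K]

/-- A place where some Frobenius element fixes the `m`-th roots of unity has norm `1` modulo `m`. -/
theorem frob_dvd (m : ℕ) [NeZero m] (ζ : AlgebraicClosure K) (hζ : IsPrimitiveRoot ζ m)
    (v : HeightOneSpectrum (𝓞 K)) (σ : GK K) (hσ : σ ζ = ζ) (hF : IsFrob v σ)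
    (hm : (m : 𝓞 K) ∉ v.asIdeal) : m ∣ Ideal.absNorm v.asIdeal - 1 := by
  obtain ⟨Q, hQ, hQv, hQx⟩ := hF
  have hint : IsIntegral ℤ ζ := hζ.isIntegral (NeZero.pos m)
  set z : 𝓞 (AlgebraicClosure K) := ⟨ζ, hint⟩ with hz
  have hzp : IsPrimitiveRoot z m :=
    IsPrimitiveRoot.of_map_of_injective (f := algebraMap (𝓞 (AlgebraicClosure K)) (AlgebraicClosure K))
      (show IsPrimitiveRoot ζ m from hζ) RingOfIntegers.coe_injective
  by_contra hcon
  have hσz : σ • z = z := by
    apply RingOfIntegers.coe_injective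
    exact hσ
  have h1 := hQx z
  rw [hσz] at h1
  set q := Ideal.absNorm v.asIdeal with hq
  have hq1 : 1 ≤ q := by
    rw [hq]
    have : Ideal.absNorm v.asIdeal ≠ 0 := by
      rw [Ne, Ideal.absNorm_eq_zero_iff]
      exact v.ne_bot
    omega
  -- `1 - z ^ j ∈ Q` with `0 < j < m`
  set j := (q - 1) % m with hj
  have hj0 : 0 < j := Nat.pos_of_ne_zero fun h => hcon (Nat.dvd_of_mod_eq_zero h)
  have hjm : j < m := Nat.mod_lt _ (NeZero.pos m)
  have h2 : z - z ^ q = z * (1 - z ^ j) := by
    have h3 : z ^ (q - 1) = z ^ j := by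
      rw [hj]
      have h4 := pow_mod_orderOf z (q - 1)
      rw [← hzp.eq_orderOf] at h4
      exact h4.symm
    obtain ⟨q', hq'⟩ : ∃ q', q = q' + 1 := ⟨q - 1, by omega⟩
    rw [hq', Nat.add_sub_cancel] at h3
    rw [hq', pow_succ, h3]
    ring
  have hunit : z ^ m = 1 := hzp.pow_eq_one
  have h3 : 1 - z ^ j ∈ Q := by
    rw [h2] at h1
    rcases hQ.isPrime.mem_or_mem h1 with h | h
    · exfalso
      apply hQ.ne_top
      rw [Ideal.eq_top_iff_one, ← hunit]
      exact Ideal.pow_mem_of_mem Q h m (NeZero.pos m)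
    · exact h
  have h4 : (m : 𝓞 (AlgebraicClosure K)) ∈ Q := by
    obtain ⟨n, hn⟩ : ∃ n, m = n + 1 := ⟨m - 1, by omega⟩
    have h5 : IsPrimitiveRoot z (n + 1) := hn ▸ hzp
    have h6 := h5.prod_one_sub_pow_eq_order
    have h7 : (m : 𝓞 (AlgebraicClosure K)) = ∏ k ∈ Finset.range n, (1 - z ^ (k + 1)) := by
      rw [h6, hn]
      push_cast
      ring
    rw [h7]
    obtain ⟨j', hj'⟩ : ∃ j', j = j' + 1 := ⟨j - 1, by omega⟩
    rw [← Finset.mul_prod_erase (Finset.range n) _ (Finset.mem_range.mpr (show j' < n by omega))]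
    refine Ideal.mul_mem_right _ _ ?_
    rw [← hj']
    exact h3
  apply hm
  rw [← hQv, Ideal.mem_comap, map_natCast]
  exact h4

/-- **The density of the places of norm one modulo `m`.** -/
theorem dens_cyc (K : Type) [Field K] [NumberField K] (m : ℕ) [NeZero m] :
    ∃ P : HeightOneSpectrum (𝓞 K) → Prop,
      Tendsto (dens P) atTop (𝓝 (1 / (Module.finrank K (CyclotomicField m K) : ℝ))) ∧
      ∀ v, P v → (m : 𝓞 K) ∉ v.asIdeal → m ∣ Ideal.absNorm v.asIdeal - 1 := by
  obtain ⟨ζ, hζ⟩ := HasEnoughRootsOfUnity.exists_primitiveRoot (AlgebraicClosure K) m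
  set E := IntermediateField.adjoin K {ζ} with hE
  have hcyc : IsCyclotomicExtension {m} K E := hζ.intermediateField_adjoin_isCyclotomicExtension K
  have hgal : IsGalois K E := IsCyclotomicExtension.isGalois {m} K E
  have hfin : FiniteDimensional K E := IsCyclotomicExtension.finiteDimensional ({m} : Set ℕ) K E
  refine ⟨fun v => ∃ σ ∈ (E.fixingSubgroup : Set (GK K)), IsFrob v σ, ?_, ?_⟩
  · have h := chebK K E.fixingSubgroup E.fixingSubgroup_isOpen (E.fixingSubgroup : Set (GK K))
      (fun σ hσ τ => Subgroup.Normal.conj_mem inferInstance σ hσ τ)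
      (fun σ hσ u hu => mul_mem hσ hu)
    have h1 : (QuotientGroup.mk : GK K → GK K ⧸ E.fixingSubgroup) '' (E.fixingSubgroup : Set (GK K)) =
        {((1 : GK K) : GK K ⧸ E.fixingSubgroup)} := by
      ext x
      constructor
      · rintro ⟨σ, hσ, rfl⟩
        rw [Set.mem_singleton_iff, QuotientGroup.eq]
        simpa using inv_mem hσ
      · rintro rfl
        exact ⟨1, one_mem _, rfl⟩
    rw [h1, Set.ncard_singleton] at h
    have h2 : Nat.card (GK K ⧸ E.fixingSubgroup) = Module.finrank K (CyclotomicField m K) := by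
      have h3 : Module.finrank K E = E.fixingSubgroup.index :=
        IntermediateField.finrank_eq_fixingSubgroup_index _ E
      have e : E ≃ₐ[K] CyclotomicField m K :=
        IsCyclotomicExtension.algEquiv ({m} : Set ℕ) K E (CyclotomicField m K)
      have h4 : Module.finrank K E = Module.finrank K (CyclotomicField m K) :=
        e.toLinearEquiv.finrank_eq
      rw [← h4, h3]
      rfl
    rw [h2, Nat.cast_one] at h
    exact h
  · rintro v ⟨σ, hσ, hF⟩ hm
    refine frob_dvd m ζ hζ v σ ?_ hF hm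
    exact (IntermediateField.mem_fixingSubgroup_iff E σ).mp hσ ζ
      (IntermediateField.mem_adjoin_simple_self K ζ)

end Pool.Agent.Q267.OD
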