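import Pool.Agent.H174R3.D6.TaskLS

/-!
# Integers in too many prescribed residue classes

From the large sieve in variance form (`Pool.Agent.H174R3.D6LS.taskLS`).
-/

set_option autoImplicit false

open Finset

namespace Pool.Agent.Q267.OD

open Pool.Agent.H295R3.D6 in
/-- One class of prime moduli with different primes. -/
theorem var_inj {ι : Type*} [DecidableEq ι] (X Q : ℕ) (V : Finset ι) (q : ι → ℕ)
    (hinj : Set.InjOn q V) (hq : ∀ v ∈ V, (q v).Prime) (hQ : ∀ v ∈ V, q v ≤ Q)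
    (B : ι → Finset ℕ) (hB : ∀ v ∈ V, B v ⊆ range (q v)) :
    ∑ n ∈ Icc 1 X, (∑ v ∈ V, ((if n % q v ∈ B v then (1 : ℝ) else 0) -
      ((B v).card : ℝ) / q v)) ^ 2 ≤
    6 * ((X : ℝ) + (Q : ℝ) ^ 2) * ∑ v ∈ V, ((B v).card : ℝ) / q v := by
  classical
  set P : Finset ℕ := V.image q with hP
  set I : ℕ → Finset ℕ := fun a => if h : ∃ v ∈ V, q v = a then B h.choose else ∅ with hI
  have hIq : ∀ v ∈ V, I (q v) = B v := by
    intro v hv
    have h : ∃ v' ∈ V, q v' = q v := ⟨v, hv, rfl⟩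
    simp only [hI]
    rw [dif_pos h, hinj h.choose_spec.1 hv h.choose_spec.2]
  have h1 := Pool.Agent.H174R3.D6LS.taskLS X Q P I (P.image fun a => {a}) (fun _ => 1)
    (by
      intro a ha
      rw [hP, mem_image] at ha
      obtain ⟨v, hv, rfl⟩ := ha
      exact hq v hv)
    (by
      intro a ha
      rw [hP, mem_image] at ha
      obtain ⟨v, hv, rfl⟩ := ha
      rw [hIq v hv]
      exact hB v hv)
    (by
      intro s hs
      rw [mem_image] at hs
      obtain ⟨a, ha, rfl⟩ := hs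
      refine ⟨singleton_subset_iff.mpr ha, ?_⟩
      rw [prod_singleton]
      rw [hP, mem_image] at ha
      obtain ⟨v, hv, rfl⟩ := ha
      exact hQ v hv)
  have hs : Set.InjOn (fun a : ℕ => ({a} : Finset ℕ)) P :=
    fun a _ b _ h => Finset.singleton_injective h
  have e1 : ∀ n : ℕ, ∑ s ∈ P.image (fun a => ({a} : Finset ℕ)), (1 : ℝ) *
      ∏ a ∈ s, ((if n % a ∈ I a then (1 : ℝ) else 0) - ((I a).card : ℝ) / a) =
      ∑ v ∈ V, ((if n % q v ∈ B v then (1 : ℝ) else 0) - ((B v).card : ℝ) / q v) := by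
    intro n
    rw [sum_image hs, hP, sum_image hinj]
    refine sum_congr rfl fun v hv => ?_
    rw [one_mul, prod_singleton, hIq v hv]
  have e2 : ∑ s ∈ P.image (fun a => ({a} : Finset ℕ)), (1 : ℝ) ^ 2 *
      ∏ a ∈ s, ((I a).card : ℝ) / a = ∑ v ∈ V, ((B v).card : ℝ) / q v := by
    rw [sum_image hs, hP, sum_image hinj]
    refine sum_congr rfl fun v hv => ?_
    rw [one_pow, one_mul, prod_singleton, hIq v hv]
  simp only [e1] at h1
  rw [e2] at h1
  exact h1

/-- At most `D` indices for every prime. -/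
theorem var {ι : Type*} [DecidableEq ι] (X Q D : ℕ) (V : Finset ι) (q : ι → ℕ)
    (hD : ∀ a, (V.filter fun v => q v = a).card ≤ D) (hq : ∀ v ∈ V, (q v).Prime)
    (hQ : ∀ v ∈ V, q v ≤ Q) (B : ι → Finset ℕ) (hB : ∀ v ∈ V, B v ⊆ range (q v)) :
    ∑ n ∈ Icc 1 X, (∑ v ∈ V, ((if n % q v ∈ B v then (1 : ℝ) else 0) -
      ((B v).card : ℝ) / q v)) ^ 2 ≤
    6 * D * ((X : ℝ) + (Q : ℝ) ^ 2) * ∑ v ∈ V, ((B v).card : ℝ) / q v := by
  classical
  -- the number of an index in its class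
  have hτ : ∀ a : ℕ, ∃ f : ι → ℕ, (∀ v ∈ V, q v = a → f v < D) ∧
      ∀ v ∈ V, ∀ v' ∈ V, q v = a → q v' = a → f v = f v' → v = v' := by
    intro a
    set W := V.filter fun v => q v = a with hW
    have e := W.equivFin
    refine ⟨fun v => if h : v ∈ W then (W.equivFin ⟨v, h⟩ : ℕ) else 0, ?_, ?_⟩
    · intro v hv hva
      have h : v ∈ W := mem_filter.mpr ⟨hv, hva⟩
      change (if h : v ∈ W then (W.equivFin ⟨v, h⟩ : ℕ) else 0) < D
      rw [dif_pos h]
      exact lt_of_lt_of_le (W.equivFin ⟨v, h⟩).2 (hD a)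
    · intro v hv v' hv' hva hva' hf
      have h : v ∈ W := mem_filter.mpr ⟨hv, hva⟩
      have h' : v' ∈ W := mem_filter.mpr ⟨hv', hva'⟩
      change (if h : v ∈ W then (W.equivFin ⟨v, h⟩ : ℕ) else 0) =
        (if h : v' ∈ W then (W.equivFin ⟨v', h⟩ : ℕ) else 0) at hf
      rw [dif_pos h, dif_pos h'] at hf
      have := W.equivFin.injective (Fin.ext hf)
      exact congrArg Subtype.val this
  choose f hf1 hf2 using hτ
  set τ : ι → ℕ := fun v => f (q v) v with hτdef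
  have hsplit : ∀ g : ι → ℝ, ∑ v ∈ V, g v = ∑ j ∈ range D, ∑ v ∈ V.filter (fun v => τ v = j), g v := by
    intro g
    refine (sum_fiberwise_of_maps_to (fun v hv => ?_) g).symm
    exact mem_range.mpr (hf1 (q v) v hv rfl)
  have hclass : ∀ j ∈ range D, ∑ n ∈ Icc 1 X, (∑ v ∈ V.filter (fun v => τ v = j),
      ((if n % q v ∈ B v then (1 : ℝ) else 0) - ((B v).card : ℝ) / q v)) ^ 2 ≤
      6 * ((X : ℝ) + (Q : ℝ) ^ 2) * ∑ v ∈ V.filter (fun v => τ v = j), ((B v).card : ℝ) / q v := by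
    intro j _
    refine var_inj X Q _ q ?_ (fun v hv => hq v (mem_filter.mp hv).1)
      (fun v hv => hQ v (mem_filter.mp hv).1) B (fun v hv => hB v (mem_filter.mp hv).1)
    intro v hv v' hv' h
    have h1 := mem_filter.mp (mem_coe.mp hv)
    have h2 := mem_filter.mp (mem_coe.mp hv')
    refine hf2 (q v) v h1.1 v' h2.1 rfl h.symm ?_
    have h3 : f (q v) v = f (q v') v' := h1.2.trans h2.2.symm
    rw [h3, h]
  calc ∑ n ∈ Icc 1 X, (∑ v ∈ V, ((if n % q v ∈ B v then (1 : ℝ) else 0) -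
        ((B v).card : ℝ) / q v)) ^ 2
      ≤ ∑ n ∈ Icc 1 X, (D : ℝ) * ∑ j ∈ range D, (∑ v ∈ V.filter (fun v => τ v = j),
        ((if n % q v ∈ B v then (1 : ℝ) else 0) - ((B v).card : ℝ) / q v)) ^ 2 := by
        refine sum_le_sum fun n _ => ?_
        rw [hsplit]
        have h := sq_sum_le_card_mul_sum_sq (s := range D) (f := fun j =>
          ∑ v ∈ V.filter (fun v => τ v = j),
            ((if n % q v ∈ B v then (1 : ℝ) else 0) - ((B v).card : ℝ) / q v))
        rw [card_range] at h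
        exact h
    _ = (D : ℝ) * ∑ j ∈ range D, ∑ n ∈ Icc 1 X, (∑ v ∈ V.filter (fun v => τ v = j),
        ((if n % q v ∈ B v then (1 : ℝ) else 0) - ((B v).card : ℝ) / q v)) ^ 2 := by
        rw [← mul_sum, sum_comm]
    _ ≤ (D : ℝ) * ∑ j ∈ range D, 6 * ((X : ℝ) + (Q : ℝ) ^ 2) *
        ∑ v ∈ V.filter (fun v => τ v = j), ((B v).card : ℝ) / q v :=
        mul_le_mul_of_nonneg_left (sum_le_sum hclass) (Nat.cast_nonneg D)
    _ = 6 * D * ((X : ℝ) + (Q : ℝ) ^ 2) * ∑ v ∈ V, ((B v).card : ℝ) / q v := by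
        rw [← mul_sum, ← hsplit]
        ring

/-- **Few integers are in the bad classes for more than the expected proportion of the moduli.** -/
theorem few {ι : Type*} (X Q D : ℕ) (V : Finset ι) (q : ι → ℕ)
    (hD : ∀ a, (V.filter fun v => q v = a).card ≤ D) (hq : ∀ v ∈ V, (q v).Prime)
    (hQ : ∀ v ∈ V, q v ≤ Q) (B : ι → Finset ℕ) (hB : ∀ v ∈ V, B v ⊆ range (q v))
    (β ε : ℝ) (hβ0 : 0 ≤ β) (hε : 0 ≤ ε) (hβ : ∀ v ∈ V, ((B v).card : ℝ) ≤ β * q v)
    (E : Finset ℕ) (hE : ∀ n ∈ E, n ∈ Icc 1 X ∧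
      (β + ε) * V.card ≤ ((V.filter fun v => n % q v ∈ B v).card : ℝ)) :
    ε ^ 2 * V.card * E.card ≤ 6 * D * β * ((X : ℝ) + (Q : ℝ) ^ 2) := by
  classical
  rcases V.eq_empty_or_nonempty with hV | ⟨v₀, hv₀⟩
  · subst hV
    rw [card_empty, Nat.cast_zero, mul_zero, zero_mul]
    positivity
  have hVpos : (0 : ℝ) < V.card := by exact_mod_cast card_pos.mpr ⟨v₀, hv₀⟩
  have h1 := var X Q D V q hD hq hQ B hB
  have hsum : ∑ v ∈ V, ((B v).card : ℝ) / q v ≤ β * V.card := by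
    calc ∑ v ∈ V, ((B v).card : ℝ) / q v ≤ ∑ _v ∈ V, β := by
          refine sum_le_sum fun v hv => ?_
          have h2 : (0 : ℝ) < q v := by exact_mod_cast (hq v hv).pos
          rw [div_le_iff₀ h2]
          exact hβ v hv
      _ = β * V.card := by rw [sum_const, nsmul_eq_mul, mul_comm]
  have h2 : ∑ _n ∈ E, (ε * V.card) ^ 2 ≤ ∑ n ∈ Icc 1 X, (∑ v ∈ V,
      ((if n % q v ∈ B v then (1 : ℝ) else 0) - ((B v).card : ℝ) / q v)) ^ 2 := by
    have hsub : E ⊆ Icc 1 X := fun n hn => (hE n hn).1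
    refine le_trans (sum_le_sum fun n hn => ?_)
      (sum_le_sum_of_subset_of_nonneg hsub fun _ _ _ => sq_nonneg _)
    have h3 : ∑ v ∈ V, ((if n % q v ∈ B v then (1 : ℝ) else 0) - ((B v).card : ℝ) / q v) =
        ((V.filter fun v => n % q v ∈ B v).card : ℝ) - ∑ v ∈ V, ((B v).card : ℝ) / q v := by
      rw [sum_sub_distrib, sum_boole]
    rw [h3]
    have h4 := (hE n hn).2
    have h5 : ε * V.card ≤ ((V.filter fun v => n % q v ∈ B v).card : ℝ) -
        ∑ v ∈ V, ((B v).card : ℝ) / q v := by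
      have : (β + ε) * V.card = β * V.card + ε * V.card := by ring
      linarith
    exact pow_le_pow_left₀ (by positivity) h5 2
  rw [sum_const, nsmul_eq_mul] at h2
  have h3 : (E.card : ℝ) * (ε * V.card) ^ 2 ≤
      6 * D * ((X : ℝ) + (Q : ℝ) ^ 2) * (β * V.card) :=
    h2.trans (h1.trans (mul_le_mul_of_nonneg_left hsum (by positivity)))
  have h4 : (V.card : ℝ) * (ε ^ 2 * V.card * E.card) ≤
      V.card * (6 * D * β * ((X : ℝ) + (Q : ℝ) ^ 2)) := by nlinarith
  exact le_of_mul_le_mul_left h4 hVpos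

end Pool.Agent.Q267.OD
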