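import Pool.Agent.Q267.OD.Res
import Pool.Agent.Q267.OD.NF
import Pool.Agent.Q267.OD.Sieve

/-!
# Ordinary places of almost all members of a pencil
-/

set_option autoImplicit false

open Finset MvPolynomial

namespace Pool.Agent.Q267.OD

open NumberField IsDedekindDomain Filter Topology
open Pool.Agent.W401.Cheb Pool.Agent.W528.Ord

section place

variable {K : Type} [Field K] [NumberField K] {n : ℕ}

/-- The reduction of a polynomial at a place. -/
noncomputable def red (v : HeightOneSpectrum (𝓞 K)) (F : MvPolynomial (Fin n) (𝓞 K)) :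
    MvPolynomial (Fin n) v.asIdeal.ResidueField :=
  map (algebraMap (𝓞 K) v.asIdeal.ResidueField) F

/-- Good ordinary reduction of the hypersurface `∑ b_i x_i ^ (d_i) + G + c = 0` at `v`. -/
def GoodOrd (d : Fin n → ℕ) (b : Fin n → 𝓞 K) (v : HeightOneSpectrum (𝓞 K))
    (F : MvPolynomial (Fin n) (𝓞 K)) : Prop :=
  (∀ i, (d i : 𝓞 K) * b i ∉ v.asIdeal) ∧ Smooth (red v F) ∧
    (hasseWitt d (Ideal.absNorm v.asIdeal) (red v F)).det ≠ 0

lemma charP_res (v : HeightOneSpectrum (𝓞 K)) (hv : (Ideal.absNorm v.asIdeal).Prime) :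
    CharP v.asIdeal.ResidueField (Ideal.absNorm v.asIdeal) := by
  have h1 : ((Ideal.absNorm v.asIdeal : ℕ) : v.asIdeal.ResidueField) = 0 := by
    rw [← map_natCast (algebraMap (𝓞 K) v.asIdeal.ResidueField),
      Ideal.algebraMap_residueField_eq_zero]
    exact Ideal.absNorm_mem _
  have h2 := ringChar.dvd h1
  rcases (Nat.dvd_prime hv).mp h2 with h | h
  · exfalso
    have h3 : ((ringChar v.asIdeal.ResidueField : ℕ) : v.asIdeal.ResidueField) = 0 :=
      CharP.cast_eq_zero _ _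
    rw [h, Nat.cast_one] at h3
    exact one_ne_zero h3
  · rw [← h]
    exact ringChar.charP _

omit [NumberField K] in
lemma red_pencil (v : HeightOneSpectrum (𝓞 K)) (d : Fin n → ℕ) (b : Fin n → 𝓞 K)
    (G : MvPolynomial (Fin n) (𝓞 K)) (c : ℕ) :
    red v (dform d b + G + C (c : 𝓞 K)) =
      dform d (fun i => algebraMap (𝓞 K) v.asIdeal.ResidueField (b i)) + red v G +
        C (c : v.asIdeal.ResidueField) := by
  unfold red dform
  rw [map_add, map_add, map_sum, map_C, map_natCast]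
  congr 2
  exact sum_congr rfl fun i _ => map_monomial _ _ _

open Classical in
/-- The bad residue classes at a place of prime norm. -/
noncomputable def badSet (d : Fin n → ℕ) (b : Fin n → 𝓞 K) (G : MvPolynomial (Fin n) (𝓞 K))
    (v : HeightOneSpectrum (𝓞 K)) : Finset ℕ :=
  Finset.filter (fun r : ℕ =>
    ¬ (Smooth (dform d (fun i => algebraMap (𝓞 K) v.asIdeal.ResidueField (b i)) + red v G +
        C (r : v.asIdeal.ResidueField)) ∧
      (hasseWitt d (Ideal.absNorm v.asIdeal)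
        (dform d (fun i => algebraMap (𝓞 K) v.asIdeal.ResidueField (b i)) + red v G +
        C (r : v.asIdeal.ResidueField))).det ≠ 0)) (range (Ideal.absNorm v.asIdeal))

lemma badSet_card (d : Fin n → ℕ) (b : Fin n → 𝓞 K) (G : MvPolynomial (Fin n) (𝓞 K))
    (hG : ∀ u ∈ G.support, ∑ i, (u i : ℚ) / d i < 1)
    (v : HeightOneSpectrum (𝓞 K)) (hv : (Ideal.absNorm v.asIdeal).Prime)
    (hd : ∀ i, d i ∣ Ideal.absNorm v.asIdeal - 1) (hb : ∀ i, b i ∉ v.asIdeal) :
    ((badSet d b G v).card : ℚ) ≤ ((Ideal.absNorm v.asIdeal - 1 : ℕ) : ℚ) * defect d +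
      ((∏ i, (d i - 1) : ℕ) : ℚ) := by
  classical
  have : Fact (Ideal.absNorm v.asIdeal).Prime := ⟨hv⟩
  have := charP_res v hv
  refine res_count (Ideal.absNorm v.asIdeal) d hd
    (fun i => algebraMap (𝓞 K) v.asIdeal.ResidueField (b i)) ?_ (red v G) ?_ _ ?_
  · intro i h
    rw [Ideal.algebraMap_residueField_eq_zero] at h
    exact hb i h
  · intro u hu
    exact hG u (support_map_subset _ _ hu)
  · intro r hr
    unfold badSet at hr
    rw [Finset.mem_filter, Finset.mem_range] at hr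
    exact hr

lemma good_of_not_mem (d : Fin n → ℕ) (hd0 : ∀ i, d i ≠ 0) (b : Fin n → 𝓞 K)
    (G : MvPolynomial (Fin n) (𝓞 K))
    (v : HeightOneSpectrum (𝓞 K)) (hv : (Ideal.absNorm v.asIdeal).Prime)
    (hd : ∀ i, d i ∣ Ideal.absNorm v.asIdeal - 1) (hb : ∀ i, b i ∉ v.asIdeal) (c : ℕ)
    (hc : c % Ideal.absNorm v.asIdeal ∉ badSet d b G v) :
    GoodOrd d b v (dform d b + G + C (c : 𝓞 K)) := by
  classical
  have := charP_res v hv
  have h1 : (c : v.asIdeal.ResidueField) =
      ((c % Ideal.absNorm v.asIdeal : ℕ) : v.asIdeal.ResidueField) :=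
    (CharP.natCast_eq_natCast' _ (Ideal.absNorm v.asIdeal) (Nat.mod_modEq _ _)).symm
  refine ⟨?_, ?_⟩
  · intro i h
    rcases v.isPrime.mem_or_mem h with h | h
    · rw [← Ideal.algebraMap_residueField_eq_zero, map_natCast,
        CharP.cast_eq_zero_iff _ (Ideal.absNorm v.asIdeal)] at h
      have h2 := hv.two_le
      have h3 := Nat.le_of_dvd (by omega) (hd i)
      have h4 := Nat.le_of_dvd (Nat.pos_of_ne_zero (hd0 i)) h
      omega
    · exact hb i h
  · rw [red_pencil, h1]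
    by_contra hcon
    apply hc
    unfold badSet
    rw [Finset.mem_filter, Finset.mem_range]
    exact ⟨Nat.mod_lt _ hv.pos, hcon⟩

end place

lemma finite_mem {K : Type} [Field K] [NumberField K] (x : 𝓞 K) (hx : x ≠ 0) :
    {v : HeightOneSpectrum (𝓞 K) | x ∈ v.asIdeal}.Finite := by
  have h : (Ideal.span {x} : Ideal (𝓞 K)) ≠ 0 := by
    rw [Ne, Ideal.zero_eq_bot, Ideal.span_singleton_eq_bot]
    exact hx
  refine (Ideal.finite_factors h).subset ?_
  intro v hv
  rw [Set.mem_ofPred_eq, Ideal.dvd_span_singleton]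
  exact hv

lemma defect_nonneg {n : ℕ} (d : Fin n → ℕ) : 0 ≤ defect d :=
  sum_nonneg fun w _ => by linarith [w.2.2]

/-- The sieve inequality for a finite set of places. -/
theorem explicit {K : Type} [Field K] [NumberField K] {n : ℕ} (d : Fin n → ℕ)
    (hd0 : ∀ i, d i ≠ 0) (b : Fin n → 𝓞 K) (G : MvPolynomial (Fin n) (𝓞 K))
    (hG : ∀ u ∈ G.support, ∑ i, (u i : ℚ) / d i < 1) (ε : ℝ) (hε : 0 ≤ ε) (Q : ℕ)
    (V : Finset (HeightOneSpectrum (𝓞 K)))
    (hV : ∀ v ∈ V, (Ideal.absNorm v.asIdeal).Prime ∧ Ideal.absNorm v.asIdeal ≤ Q ∧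
      (∀ i, d i ∣ Ideal.absNorm v.asIdeal - 1) ∧ (∀ i, b i ∉ v.asIdeal) ∧
      ((∏ i, (d i - 1) : ℕ) : ℝ) ≤ ε * Ideal.absNorm v.asIdeal)
    (X : ℕ) (E : Finset ℕ) (hE : ∀ c ∈ E, c ∈ Icc 1 X ∧ ∃ W : Finset (HeightOneSpectrum (𝓞 K)),
      W ⊆ V ∧ (∀ v ∈ V, GoodOrd d b v (dform d b + G + C (c : 𝓞 K)) → v ∈ W) ∧
      (W.card : ℝ) ≤ (1 - (defect d : ℝ) - 2 * ε) * V.card) :
    ε ^ 2 * V.card * E.card ≤ 6 * Module.finrank ℚ K * ((defect d : ℝ) + ε) *
      ((X : ℝ) + (Q : ℝ) ^ 2) := by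
  classical
  have hδ : (0 : ℝ) ≤ (defect d : ℝ) := by exact_mod_cast defect_nonneg d
  refine few X Q (Module.finrank ℚ K) V (fun v => Ideal.absNorm v.asIdeal) ?_
    (fun v hv => (hV v hv).1) (fun v hv => (hV v hv).2.1) (badSet d b G) ?_
    ((defect d : ℝ) + ε) ε (by linarith) hε ?_ E ?_
  · intro a
    by_cases ha : a.Prime
    · have h1 := Pool.Agent.W352.ChAbs.over_le (K := K) a ha
      refine le_trans ?_ h1.2
      rw [← Set.ncard_coe_finset]
      refine Set.ncard_le_ncard ?_ h1.1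
      intro v hv
      have h2 := (mem_filter.mp (mem_coe.mp hv)).2
      rw [Set.mem_ofPred_eq, ← h2]
      exact Ideal.absNorm_mem _
    · have h2 : V.filter (fun v => Ideal.absNorm v.asIdeal = a) = ∅ := by
        rw [filter_eq_empty_iff]
        intro v hv h
        exact ha (h ▸ (hV v hv).1)
      rw [h2, card_empty]
      exact Nat.zero_le _
  · intro v _
    unfold badSet
    exact Finset.filter_subset _ _
  · intro v hv
    obtain ⟨h1, _, h3, h4, h5⟩ := hV v hv
    have h6 := badSet_card d b G hG v h1 h3 h4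
    have h7 : ((badSet d b G v).card : ℝ) ≤ ((Ideal.absNorm v.asIdeal - 1 : ℕ) : ℝ) *
        (defect d : ℝ) + ((∏ i, (d i - 1) : ℕ) : ℝ) := by exact_mod_cast h6
    have h8 : ((Ideal.absNorm v.asIdeal - 1 : ℕ) : ℝ) ≤ (Ideal.absNorm v.asIdeal : ℝ) := by
      exact_mod_cast Nat.sub_le _ _
    have h9 := mul_le_mul_of_nonneg_right h8 hδ
    linarith
  · intro c hc
    obtain ⟨h1, W, hWV, hW, hWc⟩ := hE c hc
    refine ⟨h1, ?_⟩
    have h2 : V \ W ⊆ V.filter fun v => c % Ideal.absNorm v.asIdeal ∈ badSet d b G v := by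
      intro v hv
      rw [Finset.mem_sdiff] at hv
      rw [Finset.mem_filter]
      refine ⟨hv.1, ?_⟩
      by_contra hcon
      obtain ⟨h3, _, h5, h6, _⟩ := hV v hv.1
      exact hv.2 (hW v hv.1 (good_of_not_mem d hd0 b G v h3 h5 h6 c hcon))
    have h3 : (V.card : ℝ) - W.card ≤
        ((V.filter fun v => c % Ideal.absNorm v.asIdeal ∈ badSet d b G v).card : ℝ) := by
      have h4 := card_le_card h2
      rw [card_sdiff_of_subset hWV] at h4
      have h5 := card_le_card hWV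
      have h6 : ((V.card - W.card : ℕ) : ℝ) ≤
        ((V.filter fun v => c % Ideal.absNorm v.asIdeal ∈ badSet d b G v).card : ℝ) := by
        exact_mod_cast h4
      rw [Nat.cast_sub h5] at h6
      exact h6
    nlinarith

end Pool.Agent.Q267.OD
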