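import Pool.Agent.Q267.OD.Crit

/-!
# The bad values of `c` in a pencil over a field with `p` elements
-/

set_option autoImplicit false

open Finset MvPolynomial

namespace Pool.Agent.Q267.OD

/-- The exponents `w` with `w i ≥ 1` and `∑ w i / d i < 1`. -/
abbrev Exps {n : ℕ} (d : Fin n → ℕ) :=
  {w : (i : Fin n) → Fin (d i) // (∀ i, 0 < (w i : ℕ)) ∧ ∑ i, ((w i : ℕ) : ℚ) / d i < 1}

/-- The Hasse-Witt matrix: the coefficients of `x ^ (q w - w')` in `F ^ (q - 1)`. -/
noncomputable def hasseWitt {R : Type*} [CommRing R] {n : ℕ} (d : Fin n → ℕ) (q : ℕ)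
    (F : MvPolynomial (Fin n) R) : Matrix (Exps d) (Exps d) R :=
  Matrix.of fun w w' => coeff (Finsupp.equivFunOnFinite.symm fun i => q * (w.1 i : ℕ))
    (monomial (Finsupp.equivFunOnFinite.symm fun i => (w'.1 i : ℕ)) 1 * F ^ (q - 1))

/-- The sum of the numbers `1 - ∑ w i / d i` over all exponents. -/
def defect {n : ℕ} (d : Fin n → ℕ) : ℚ := ∑ w : Exps d, (1 - ∑ i, ((w.1 i : ℕ) : ℚ) / d i)

/-- No singular zero over the algebraic closure. -/
def Smooth {k : Type*} [Field k] {n : ℕ} (F : MvPolynomial (Fin n) k) : Prop :=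
  ∀ ξ : Fin n → AlgebraicClosure k, aeval ξ F = 0 → ∃ i, aeval ξ (pderiv i F) ≠ 0

variable {n : ℕ}

/-- The exponents as finitely supported functions. -/
noncomputable def wexp (d : Fin n → ℕ) (w : Exps d) : Fin n →₀ ℕ :=
  Finsupp.equivFunOnFinite.symm fun i => (w.1 i : ℕ)

lemma wexp_apply (d : Fin n → ℕ) (w : Exps d) (i : Fin n) : wexp d w i = (w.1 i : ℕ) := rfl

lemma wexp_inj (d : Fin n → ℕ) : Function.Injective (wexp d) := by
  intro w w' h
  apply Subtype.ext
  funext i
  exact Fin.ext (DFunLike.congr_fun h i)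

lemma hasseWitt_eq {R : Type*} [CommRing R] (d : Fin n → ℕ) (q : ℕ)
    (F : MvPolynomial (Fin n) R) : hasseWitt d q F = hw q (wexp d) F := by
  ext w w'
  unfold hasseWitt hw
  rw [Matrix.of_apply, Matrix.of_apply]
  congr 1
  ext i
  rw [Finsupp.smul_apply, smul_eq_mul]
  rfl

lemma weight_rat {p : ℕ} (d : Fin n → ℕ) (hd : ∀ i, d i ∣ p - 1) (u : Fin n →₀ ℕ) :
    ((Finsupp.weight (fun l => (p - 1) / d l) u : ℕ) : ℚ) =
      ((p - 1 : ℕ) : ℚ) * ∑ i, (u i : ℚ) / d i := by
  rw [Finsupp.weight_apply, Finsupp.sum_fintype _ _ (by simp), Nat.cast_sum, mul_sum]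
  refine sum_congr rfl fun i _ => ?_
  rw [smul_eq_mul, Nat.cast_mul]
  obtain ⟨q, hq⟩ := hd i
  rcases Nat.eq_zero_or_pos (d i) with h | h
  · rw [h]
    simp
  · rw [hq, Nat.mul_div_cancel_left _ h]
    push_cast
    field_simp

lemma weight_lt {p : ℕ} (hp : 2 ≤ p) (d : Fin n → ℕ) (hd : ∀ i, d i ∣ p - 1) (u : Fin n →₀ ℕ)
    (hu : ∑ i, (u i : ℚ) / d i < 1) : Finsupp.weight (fun l => (p - 1) / d l) u < p - 1 := by
  have h1 := weight_rat d hd u
  have h2 : (0 : ℚ) < ((p - 1 : ℕ) : ℚ) := by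
    have : 0 < p - 1 := by omega
    exact_mod_cast this
  have h3 : ((Finsupp.weight (fun l => (p - 1) / d l) u : ℕ) : ℚ) < ((p - 1 : ℕ) : ℚ) := by
    rw [h1]
    calc ((p - 1 : ℕ) : ℚ) * ∑ i, (u i : ℚ) / d i < ((p - 1 : ℕ) : ℚ) * 1 :=
          mul_lt_mul_of_pos_left hu h2
      _ = _ := mul_one _
  exact_mod_cast h3

lemma defect_eq {p : ℕ} (hp : 2 ≤ p) (d : Fin n → ℕ) (hd : ∀ i, d i ∣ p - 1) :
    ((∑ w : Exps d, (p - 1 - Finsupp.weight (fun l => (p - 1) / d l) (wexp d w)) : ℕ) : ℚ) =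
      ((p - 1 : ℕ) : ℚ) * defect d := by
  unfold defect
  rw [Nat.cast_sum, mul_sum]
  refine sum_congr rfl fun w _ => ?_
  have h1 := weight_lt hp d hd (wexp d w) w.2.2
  rw [Nat.cast_sub h1.le, weight_rat d hd]
  simp only [wexp_apply]
  ring

/-- **The bad values.** -/
theorem res_count {k : Type*} [Field k] (p : ℕ) [Fact p.Prime] [CharP k p] (d : Fin n → ℕ)
    (hd : ∀ i, d i ∣ p - 1) (b : Fin n → k) (hb : ∀ i, b i ≠ 0) (G : MvPolynomial (Fin n) k)
    (hG : ∀ u ∈ G.support, ∑ i, (u i : ℚ) / d i < 1) (B : Finset ℕ)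
    (hB : ∀ r ∈ B, r < p ∧ ¬ (Smooth (dform d b + G + C (r : k)) ∧
      (hasseWitt d p (dform d b + G + C (r : k))).det ≠ 0)) :
    (B.card : ℚ) ≤ ((p - 1 : ℕ) : ℚ) * defect d + ((∏ i, (d i - 1) : ℕ) : ℚ) := by
  classical
  have hp := (Fact.out : p.Prime)
  have hp2 := hp.two_le
  have he : ∀ l, (p - 1) / d l * d l = p - 1 := fun l => Nat.div_mul_cancel (hd l)
  have hGw : ∀ u ∈ G.support, Finsupp.weight (fun l => (p - 1) / d l) u < p - 1 :=
    fun u hu => weight_lt hp2 d hd u (hG u hu)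
  have hcast : ∀ r ∈ B, ∀ r' ∈ B, (r : k) = (r' : k) → r = r' := by
    intro r hr r' hr' h
    exact CharP.natCast_injOn_Iio k p (Set.mem_Iio.mpr (hB r hr).1)
      (Set.mem_Iio.mpr (hB r' hr').1) h
  set B1 : Finset ℕ := B.filter fun r : ℕ => (hasseWitt d p (dform d b + G + C (r : k))).det = 0 with hB1
  set B2 : Finset ℕ := B.filter fun r : ℕ => ¬ (hasseWitt d p (dform d b + G + C (r : k))).det = 0 with hB2
  have hcard : B.card = B1.card + B2.card := (card_filter_add_card_filter_not _).symm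
  -- singular matrices
  have h1 : (B1.card : ℚ) ≤ ((p - 1 : ℕ) : ℚ) * defect d := by
    rw [← defect_eq hp2 d hd]
    have h2 : B1.card = (B1.image fun r : ℕ => (r : k)).card := by
      rw [card_image_of_injOn]
      intro r hr r' hr' h
      exact hcast r (mem_filter.mp hr).1 r' (mem_filter.mp hr').1 h
    rw [h2]
    refine Nat.cast_le.mpr (count_bad p d hd b hb (wexp d) (wexp_inj d) ?_ ?_ G hGw _ ?_)
    · intro w l
      exact ⟨w.2.1 l, (w.1 l).2⟩
    · intro w
      exact (weight_lt hp2 d hd (wexp d w) w.2.2).le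
    · intro c hc
      obtain ⟨r, hr, rfl⟩ := mem_image.mp hc
      have := (mem_filter.mp hr).2
      rw [hasseWitt_eq] at this
      exact this
  -- singular fibres
  have h3 : B2.card ≤ ∏ i, (d i - 1) := by
    have hsing : ∀ r ∈ B2, ∃ ξ : Fin n → AlgebraicClosure k,
        aeval ξ (dform d b + G + C (r : k)) = 0 ∧
        ∀ i, aeval ξ (pderiv i (dform d b + G + C (r : k))) = 0 := by
      intro r hr
      have h4 := (hB r (mem_filter.mp hr).1).2
      have h5 : ¬ Smooth (dform d b + G + C (r : k)) := fun h => h4 ⟨h, (mem_filter.mp hr).2⟩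
      unfold Smooth at h5
      push Not at h5
      exact h5
    choose! ξ hξ0 hξ1 using hsing
    have hmapL : map (algebraMap k (AlgebraicClosure k)) (dform d b + G) =
        dform d (fun i => algebraMap k (AlgebraicClosure k) (b i)) +
          map (algebraMap k (AlgebraicClosure k)) G := by
      rw [map_add]
      congr 1
      unfold dform
      rw [map_sum]
      exact sum_congr rfl fun i _ => map_monomial _ _ _
    have hinj : Set.InjOn ξ B2 := by
      intro r hr r' hr' h
      have h4 := hξ0 r hr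
      have h5 := hξ0 r' hr'
      rw [map_add] at h4 h5
      rw [← h] at h5
      have h6 : aeval (ξ r) (C (r : k)) = aeval (ξ r) (C (r' : k)) := by
        have := h4.trans h5.symm
        exact add_left_cancel this
      rw [← algebraMap_eq, AlgHom.commutes, AlgHom.commutes] at h6
      exact hcast r (mem_filter.mp hr).1 r' (mem_filter.mp hr').1
        ((algebraMap k (AlgebraicClosure k)).injective h6)
    rw [← card_image_of_injOn hinj]
    refine crit_card (p - 1) (fun l => (p - 1) / d l) d he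
      (fun i => algebraMap k (AlgebraicClosure k) (b i)) ?_
      (map (algebraMap k (AlgebraicClosure k)) G) ?_ _ ?_
    · intro i
      refine mul_ne_zero (by simpa using hb i) ?_
      intro h
      have h4 : ((d i : ℕ) : k) = 0 := by
        apply (algebraMap k (AlgebraicClosure k)).injective
        rw [map_natCast, h, map_zero]
      rw [CharP.cast_eq_zero_iff k p] at h4
      have h5 := hd i
      have h6 := Nat.le_of_dvd (by omega) h5
      have h7 : 0 < d i := Nat.pos_of_ne_zero fun h8 => by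
        rw [h8, zero_dvd_iff] at h5
        omega
      have h8 := Nat.le_of_dvd h7 h4
      omega
    · intro u hu
      exact hGw u (support_map_subset _ _ hu)
    · intro x hx i
      obtain ⟨r, hr, rfl⟩ := mem_image.mp hx
      have h4 := hξ1 r hr i
      rw [map_add, pderiv_C, add_zero] at h4
      rw [← hmapL, pderiv_map, eval_map, ← aeval_def]
      exact h4
  rw [hcard, Nat.cast_add]
  exact add_le_add h1 (by exact_mod_cast h3)

end Pool.Agent.Q267.OD
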